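import Pool.Agent.Lib.MP_8613e3_im.Cl

/-!
# All (100): an arc of the system contains an open piece or is disjoint from it

Let `α` be a parametrisation of `A` on `[0,1]` (`Param α (pt i) (pt j) A`), `B = pc h`, `C = D.skel \ B` (closed, `skel_diff_closed`). Suppose
`α u ∈ B`, `u ∈ (0,1)` (not `0, 1` as `B` contains no vertices). Let `p = sSup {s ∈ [0,u] | α s ∈ C}`, `q = sInf {s ∈ [u,1] | α s ∈ C}`: closed
nonempty sets, so `α p, α q ∈ C`, `p < u < q` and `α '' Ioo p q ⊆ B`. So `α p, α q ∈ closure B \ B ⊆ {base h, base (flip h)}` (`pc_closure`), and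
they are different by injectivity of `α`. If some `z = γ v t ∈ B` were not in `A`: the connected set `α '' Icc p q` is the
union of its intersections with the closed sets `γ v '' Icc (cp h) t` and `γ v '' Icc t (1 - cp (flip h))`, which have only `z` in common, and it meets both
(in `α p`, `α q`); contradiction (`IsPreconnected` and closed sets: `isPreconnected_closed_iff`). Or: `γ v` on `[0,1]` has a continuous
inverse on the edge, and the image of `α '' Icc p q` is an interval containing `cp h` and `1 - cp (flip h)`.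
-/

set_option autoImplicit false

namespace Pool.HexDraw

open Set Topology

variable {S : Type} [TopologicalSpace S] {n : ℕ} {D : Drawing S n}

theorem all_or_nothing [T2Space S] (G : Geo D) (M : LineNet G.L) {i j : Fin n} {A : Set S} (hA : Good D i j A)
    {h : Dart n D.crossings} (hne : (G.pc M h ∩ A).Nonempty) : G.pc M h ⊆ A := by
  obtain ⟨α, hc, hi, h0, h1, him⟩ := hA.arc
  obtain ⟨y, hyB, hyA⟩ := hne
  rw [← him] at hyA
  obtain ⟨u, hu, rfl⟩ := hyA
  have hC := skel_diff_closed G M h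
  have hαA : ∀ s ∈ Icc (0 : ℝ) 1, α s ∈ A := fun s hs => by
    rw [← him]
    exact mem_image_of_mem α hs
  have hCB : ∀ s ∈ Icc (0 : ℝ) 1, α s ∉ G.pc M h → α s ∈ D.skel \ G.pc M h := fun s hs hn =>
    ⟨hA.sub (hαA s hs), hn⟩
  have h00 : α 0 ∈ D.skel \ G.pc M h := hCB 0 (by simp) (fun hb => pc_ne_pt G M hb i h0)
  have h11 : α 1 ∈ D.skel \ G.pc M h := hCB 1 (by simp) (fun hb => pc_ne_pt G M hb j h1)
  have hP : IsCompact (Icc 0 u ∩ α ⁻¹' (D.skel \ G.pc M h)) :=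
    isCompact_Icc.of_isClosed_subset
      ((hc.mono (Icc_subset_Icc le_rfl hu.2)).preimage_isClosed_of_isClosed isClosed_Icc hC)
      inter_subset_left
  have hQ : IsCompact (Icc u 1 ∩ α ⁻¹' (D.skel \ G.pc M h)) :=
    isCompact_Icc.of_isClosed_subset
      ((hc.mono (Icc_subset_Icc hu.1 le_rfl)).preimage_isClosed_of_isClosed isClosed_Icc hC)
      inter_subset_left
  obtain ⟨p, hp, hp'⟩ := hP.exists_isGreatest ⟨0, ⟨⟨le_rfl, hu.1⟩, h00⟩⟩
  obtain ⟨q, hq, hq'⟩ := hQ.exists_isLeast ⟨1, ⟨⟨hu.2, le_rfl⟩, h11⟩⟩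
  have hpu : p < u := by
    refine lt_of_le_of_ne hp.1.2 ?_
    intro e
    have h2 : α p ∉ G.pc M h := hp.2.2
    rw [e] at h2
    exact h2 hyB
  have huq : u < q := by
    refine lt_of_le_of_ne hq.1.1 ?_
    intro e
    have h2 : α q ∉ G.pc M h := hq.2.2
    rw [← e] at h2
    exact h2 hyB
  have hin : ∀ s ∈ Ioo p q, α s ∈ G.pc M h := by
    intro s hs
    by_contra hn
    have hs01 : s ∈ Icc (0 : ℝ) 1 := ⟨hp.1.1.trans hs.1.le, hs.2.le.trans hq.1.2⟩
    have hsC := hCB s hs01 hn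
    rcases le_total s u with hsu | hsu
    · exact absurd (hp' ⟨⟨hs01.1, hsu⟩, hsC⟩) (not_le.2 hs.1)
    · exact absurd (hq' ⟨⟨hsu, hs01.2⟩, hsC⟩) (not_le.2 hs.2)
  have hpq : p < q := hpu.trans huq
  have hsub01 : Icc p q ⊆ Icc (0 : ℝ) 1 := Icc_subset_Icc hp.1.1 hq.1.2
  have hcl : ∀ s ∈ Icc p q, α s ∈ closure (G.pc M h) := by
    intro s hs
    have h3 : s ∈ closure (Ioo p q) := by
      rw [closure_Ioo hpq.ne]
      exact hs
    have h4 : ContinuousWithinAt α (Ioo p q) s :=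
      (hc s (hsub01 hs)).mono (Ioo_subset_Icc_self.trans hsub01)
    refine closure_mono ?_ (h4.mem_closure_image h3)
    rintro _ ⟨r, hr, rfl⟩
    exact hin r hr
  have hend : ∀ s ∈ Icc p q, α s ∉ G.pc M h → α s = D.base h ∨ α s = D.base (M.flip h) := by
    intro s hs hn
    rcases pc_closure G M h (hcl s hs) with h5 | h5
    · exact absurd h5 hn
    · simpa using h5
  have ep := hend p ⟨le_rfl, hpq.le⟩ hp.2.2
  have eq := hend q ⟨hpq.le, le_rfl⟩ hq.2.2
  have hne : α p ≠ α q := fun e => hpq.ne (hi (hsub01 ⟨le_rfl, hpq.le⟩) (hsub01 ⟨hpq.le, le_rfl⟩) e)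
  have hK1 : D.base h ∈ α '' Icc p q := by
    rcases ep with ep | ep
    · exact ⟨p, ⟨le_rfl, hpq.le⟩, ep⟩
    · rcases eq with eq | eq
      · exact ⟨q, ⟨hpq.le, le_rfl⟩, eq⟩
      · exact absurd (ep.trans eq.symm) hne
  have hK2 : D.base (M.flip h) ∈ α '' Icc p q := by
    rcases ep with ep | ep
    · rcases eq with eq | eq
      · exact absurd (ep.trans eq.symm) hne
      · exact ⟨q, ⟨hpq.le, le_rfl⟩, eq⟩
    · exact ⟨p, ⟨le_rfl, hpq.le⟩, ep⟩
  have hg1 : G.γ (G.L.ddir h) (G.cp h) = D.base h := gamma_cp G h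
  have hg2 : G.γ (G.L.ddir h) (1 - G.cp (M.flip h)) = D.base (M.flip h) := by
    rw [← G.rev, ← M.ddir_flip]
    exact gamma_cp G (M.flip h)
  have hab := cp_lt G M h
  have ha0 := cp_nonneg G h
  have hb0 := cp_nonneg G (M.flip h)
  have hγ := G.param (G.L.ddir h)
  have hKsub : ∀ s ∈ Icc p q, α s ∈ G.γ (G.L.ddir h) '' Icc (G.cp h) (1 - G.cp (M.flip h)) := by
    intro s hs
    by_cases hB : α s ∈ G.pc M h
    · exact image_mono Ioo_subset_Icc_self hB
    · rcases hend s hs hB with h5 | h5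
      · exact ⟨_, ⟨le_rfl, hab.le⟩, hg1.trans h5.symm⟩
      · exact ⟨_, ⟨hab.le, le_rfl⟩, hg2.trans h5.symm⟩
  rintro z ⟨t, ht, rfl⟩
  have hconn : IsPreconnected (α '' Icc p q) := isPreconnected_Icc.image α (hc.mono hsub01)
  have hcl1 : IsClosed (G.γ (G.L.ddir h) '' Icc (G.cp h) t) :=
    (isCompact_Icc.image_of_continuousOn (hγ.1.mono (Icc_subset_Icc ha0 (by linarith [ht.2])))).isClosed
  have hcl2 : IsClosed (G.γ (G.L.ddir h) '' Icc t (1 - G.cp (M.flip h))) :=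
    (isCompact_Icc.image_of_continuousOn (hγ.1.mono (Icc_subset_Icc (by linarith [ht.1]) (by linarith)))).isClosed
  obtain ⟨w, hw, ⟨s1, hs1, e1⟩, ⟨s2, hs2, e2⟩⟩ := isPreconnected_closed_iff.1 hconn _ _ hcl1 hcl2 (by
    rintro _ ⟨s, hs, rfl⟩
    obtain ⟨r, hr, er⟩ := hKsub s hs
    rcases le_total r t with h6 | h6
    · exact Or.inl ⟨r, ⟨hr.1, h6⟩, er⟩
    · exact Or.inr ⟨r, ⟨h6, hr.2⟩, er⟩)
    ⟨D.base h, hK1, ⟨G.cp h, ⟨le_rfl, ht.1.le⟩, hg1⟩⟩
    ⟨D.base (M.flip h), hK2, ⟨1 - G.cp (M.flip h), ⟨ht.2.le, le_rfl⟩, hg2⟩⟩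
  have h7 : s1 = s2 := hγ.2.1 ⟨by linarith [hs1.1], by linarith [hs1.2, ht.2]⟩
    ⟨by linarith [hs2.1, ht.1], by linarith [hs2.2]⟩ (e1.trans e2.symm)
  have h8 : s1 = t := le_antisymm hs1.2 (h7 ▸ hs2.1)
  obtain ⟨s, hs, es⟩ := hw
  rw [← h8, e1, ← es]
  exact hαA s (hsub01 hs)

end Pool.HexDraw
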