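import Pool.Agent.Lib.MP_8613e3_im.Defs

/-!
# ArcEq (50): two simple arcs with the same ends, one contained in the other, are equal

Let `α` parametrise `A` and `β` parametrise `B ⊆ A`. On the compact interval `[0,1]` the map `α` is a homeomorphism onto `A`
(`Continuous.isClosedEmbedding` for the restriction to the subtype `Icc 0 1`, or `CompactSpace` and `T2Space`), so `t ↦ α⁻¹ (β t)` is continuous
on `[0,1]` with values `0` at `0` and `1` at `1`; by the intermediate value theorem (`intermediate_value_Icc`) it takes all values in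
`[0,1]`, so `A ⊆ B`.
-/

set_option autoImplicit false

namespace Pool.HexDraw

open Set Topology

variable {S : Type} [TopologicalSpace S]

theorem arc_eq [T2Space S] {p q : S} {A B : Set S} (hA : IsArc p q A) (hB : IsArc p q B) (h : B ⊆ A) : A = B := by
  obtain ⟨α, ha1, ha2, ha3, ha4, ha5⟩ := hA
  obtain ⟨β, hb1, hb2, hb3, hb4, hb5⟩ := hB
  refine Subset.antisymm ?_ h
  have hfc : Continuous (fun t : Icc (0 : ℝ) 1 => α t) := continuousOn_iff_continuous_domRestrict.1 ha1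
  have hfi : Function.Injective (fun t : Icc (0 : ℝ) 1 => α t) := injOn_iff_injective.1 ha2
  have hf := hfc.isClosedEmbedding hfi
  have hmem : ∀ t : Icc (0 : ℝ) 1, β t ∈ range (fun t : Icc (0 : ℝ) 1 => α t) := by
    intro t
    have h1 : β t ∈ A := h (hb5 ▸ mem_image_of_mem β t.2)
    rw [← ha5] at h1
    obtain ⟨s, hs, hs'⟩ := h1
    exact ⟨⟨s, hs⟩, hs'⟩
  let e := hf.isEmbedding.toHomeomorph
  let g : Icc (0 : ℝ) 1 → Icc (0 : ℝ) 1 := fun t => e.symm ⟨β t, hmem t⟩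
  have hbc : Continuous (fun t : Icc (0 : ℝ) 1 => β t) := continuousOn_iff_continuous_domRestrict.1 hb1
  have hgc : Continuous g := e.symm.continuous.comp (hbc.subtype_mk hmem)
  have hg : ∀ t, α (g t) = β t := fun t => congrArg Subtype.val (e.apply_symm_apply ⟨β t, hmem t⟩)
  have e0 : (0 : ℝ) ∈ Icc (0 : ℝ) 1 := left_mem_Icc.2 zero_le_one
  have e1 : (1 : ℝ) ∈ Icc (0 : ℝ) 1 := right_mem_Icc.2 zero_le_one
  have h0 : g ⟨0, e0⟩ = ⟨0, e0⟩ := hfi (by
    show α (g ⟨0, e0⟩) = α 0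
    rw [hg, ha3]
    exact hb3)
  have h1 : g ⟨1, e1⟩ = ⟨1, e1⟩ := hfi (by
    show α (g ⟨1, e1⟩) = α 1
    rw [hg, ha4]
    exact hb4)
  have hr := intermediate_value_univ (⟨0, e0⟩ : Icc (0 : ℝ) 1) ⟨1, e1⟩ (continuous_subtype_val.comp hgc)
  rw [← ha5]
  rintro y ⟨s, hs, rfl⟩
  have hs1 : s ∈ Icc ((Subtype.val ∘ g) ⟨0, e0⟩) ((Subtype.val ∘ g) ⟨1, e1⟩) := by
    show s ∈ Icc (g ⟨0, e0⟩ : ℝ) (g ⟨1, e1⟩ : ℝ)
    rw [h0, h1]
    exact hs
  obtain ⟨t, ht⟩ := hr hs1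
  rw [← hb5]
  refine ⟨t, t.2, ?_⟩
  rw [← hg, ← ht]
  rfl

end Pool.HexDraw
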