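import Pool.Agent.Lib.MP_8613e3_im.NoB

/-!
# Cl (90): an open piece is open in the union of the edges; its closure

`skel_diff_closed`: `D.skel \ pc h` is the union of the edges `D.edge k l` with `{k,l}` different from the pair of `v = ddir h`, of
`γ v '' Icc 0 (cp h)` and of `γ v '' Icc (1 - cp (flip h)) 1`: finitely many compact sets. (A point of another edge is not in
`pc h`: it would be a vertex or a crossing, see NoB. For a point of the edge `v` use injectivity of `γ v` on `[0,1]`.)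
`pc_closure`: `γ v '' Icc (cp h) (1 - cp (flip h))` is compact, hence closed, and contains `pc h`; its end points are `base h` and
`base (flip h)` (`gamma_cp`, `G.rev`, `M.ddir_flip`). `base_mem_closure`: continuity of `γ v` at `cp h` within `[0,1]`.
-/

set_option autoImplicit false

namespace Pool.HexDraw

open Set Topology

variable {S : Type} [TopologicalSpace S] {n : ℕ} {D : Drawing S n}

private theorem cl_b (G : Geo D) (M : LineNet G.L) (h : Dart n D.crossings) :
    G.γ (G.L.ddir h) (1 - G.cp (M.flip h)) = D.base (M.flip h) := by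
  have h1 := gamma_cp G (M.flip h)
  rw [M.ddir_flip, G.rev] at h1
  exact h1

private theorem cl_closed [T2Space S] (G : Geo D) (v : VD n) {a b : ℝ} (ha : 0 ≤ a) (hb : b ≤ 1) :
    IsClosed (G.γ v '' Icc a b) := by
  have h1 : ContinuousOn (G.γ v) (Icc a b) := (G.param v).1.mono (Icc_subset_Icc ha hb)
  exact (isCompact_Icc.image_of_continuousOn h1).isClosed

private theorem cl_common (G : Geo D) (M : LineNet G.L) (h : Dart n D.crossings) (w : VD n)
    (h1 : w ≠ G.L.ddir h) (h2 : w ≠ (G.L.ddir h).rev) {y : S} (hy : y ∈ G.pc M h)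
    (hw : y ∈ D.edge w.1.1 w.1.2) : False := by
  have hv := pc_sub_edge G M h hy
  have hcr := pc_not_crossing G M hy
  have hpt := pc_ne_pt G M hy
  generalize G.L.ddir h = v at hv h1 h2
  obtain ⟨⟨i, j⟩, hij⟩ := w
  obtain ⟨⟨k, l⟩, hkl⟩ := v
  replace hij : i ≠ j := hij
  replace hkl : k ≠ l := hkl
  replace hv : y ∈ D.edge k l := hv
  replace hw : y ∈ D.edge i j := hw
  by_cases e1 : i = k
  · subst e1
    have hjl : j ≠ l := fun e => h1 (by subst e; rfl)
    have h3 : y ∈ D.edge i j ∩ D.edge i l := ⟨hw, hv⟩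
    rw [D.adjacent i j l hij hkl hjl] at h3
    exact hpt i h3
  by_cases e2 : i = l
  · subst e2
    have hjk : j ≠ k := fun e => h2 (by subst e; rfl)
    rw [D.symm k i] at hv
    have h3 : y ∈ D.edge i j ∩ D.edge i k := ⟨hw, hv⟩
    rw [D.adjacent i j k hij (Ne.symm hkl) hjk] at h3
    exact hpt i h3
  rw [D.symm i j] at hw
  by_cases e3 : j = k
  · subst e3
    have h3 : y ∈ D.edge j i ∩ D.edge j l := ⟨hw, hv⟩
    rw [D.adjacent j i l (Ne.symm hij) hkl e2] at h3
    exact hpt j h3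
  by_cases e4 : j = l
  · subst e4
    rw [D.symm k j] at hv
    have h3 : y ∈ D.edge j i ∩ D.edge j k := ⟨hw, hv⟩
    rw [D.adjacent j i k (Ne.symm hij) (Ne.symm hkl) e1] at h3
    exact hpt j h3
  rw [D.symm j i] at hw
  exact hcr ⟨i, j, k, l, hij, hkl, ⟨e1, e2, e3, e4⟩, hw, hv⟩

theorem skel_diff_closed [T2Space S] (G : Geo D) (M : LineNet G.L) (h : Dart n D.crossings) :
    IsClosed (D.skel \ G.pc M h) := by
  have a0 := cp_nonneg G h
  have a1 := cp_lt G M h
  have a2 := cp_nonneg G (M.flip h)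
  have himg := (G.param (G.L.ddir h)).2.2.2.2
  have hinj := (G.param (G.L.ddir h)).2.1
  have key : D.skel \ G.pc M h =
      (⋃ w : {w : VD n // w ≠ G.L.ddir h ∧ w ≠ (G.L.ddir h).rev}, D.edge w.1.1.1 w.1.1.2) ∪
        (G.γ (G.L.ddir h) '' Icc 0 (G.cp h) ∪ G.γ (G.L.ddir h) '' Icc (1 - G.cp (M.flip h)) 1) := by
    ext y
    constructor
    · rintro ⟨⟨i, j, hij, hy⟩, hn⟩
      by_cases hw : (⟨(i, j), hij⟩ : VD n) ≠ G.L.ddir h ∧ (⟨(i, j), hij⟩ : VD n) ≠ (G.L.ddir h).rev
      · left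
        rw [mem_iUnion]
        exact ⟨⟨⟨(i, j), hij⟩, hw⟩, hy⟩
      · right
        have hy' : y ∈ D.edge (G.L.ddir h).1.1 (G.L.ddir h).1.2 := by
          by_cases e : (⟨(i, j), hij⟩ : VD n) = G.L.ddir h
          · rw [← e]
            exact hy
          · have e' : (⟨(i, j), hij⟩ : VD n) = (G.L.ddir h).rev := by
              by_contra hc
              exact hw ⟨e, hc⟩
            have e2 : G.L.ddir h = VD.rev ⟨(i, j), hij⟩ := by
              rw [e']
              rfl
            rw [e2, D.symm]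
            exact hy
        rw [← himg] at hy'
        obtain ⟨t, ht, rfl⟩ := hy'
        rcases le_or_gt t (G.cp h) with h3 | h3
        · exact Or.inl ⟨t, ⟨ht.1, h3⟩, rfl⟩
        rcases le_or_gt (1 - G.cp (M.flip h)) t with h4 | h4
        · exact Or.inr ⟨t, ⟨h4, ht.2⟩, rfl⟩
        exact absurd ⟨t, ⟨h3, h4⟩, rfl⟩ hn
    · rintro (hy | ⟨t, ht, rfl⟩ | ⟨t, ht, rfl⟩)
      · rw [mem_iUnion] at hy
        obtain ⟨⟨w, hw1, hw2⟩, hy⟩ := hy
        exact ⟨⟨w.1.1, w.1.2, w.2, hy⟩, fun hp => cl_common G M h w hw1 hw2 hp hy⟩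
      · have ht' : t ∈ Icc (0 : ℝ) 1 := ⟨ht.1, by linarith [ht.2]⟩
        refine ⟨⟨_, _, (G.L.ddir h).2, himg ▸ mem_image_of_mem _ ht'⟩, ?_⟩
        rintro ⟨s, hs, he⟩
        have := hinj ⟨by linarith [hs.1], by linarith [hs.2]⟩ ht' he
        linarith [hs.1, ht.2]
      · have ht' : t ∈ Icc (0 : ℝ) 1 := ⟨by linarith [ht.1], ht.2⟩
        refine ⟨⟨_, _, (G.L.ddir h).2, himg ▸ mem_image_of_mem _ ht'⟩, ?_⟩
        rintro ⟨s, hs, he⟩
        have := hinj ⟨by linarith [hs.1], by linarith [hs.2]⟩ ht' he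
        linarith [hs.2, ht.1]
  rw [key]
  refine (isClosed_iUnion_of_finite fun w => ?_).union
    ((cl_closed G _ le_rfl (by linarith)).union (cl_closed G _ (by linarith) le_rfl))
  rw [← (G.param w.1).2.2.2.2]
  exact cl_closed G _ le_rfl le_rfl

theorem pc_closure [T2Space S] (G : Geo D) (M : LineNet G.L) (h : Dart n D.crossings) :
    closure (G.pc M h) ⊆ G.pc M h ∪ {D.base h, D.base (M.flip h)} := by
  have a0 := cp_nonneg G h
  have a2 := cp_nonneg G (M.flip h)
  have h1 : closure (G.pc M h) ⊆ G.γ (G.L.ddir h) '' Icc (G.cp h) (1 - G.cp (M.flip h)) :=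
    closure_minimal (image_mono Ioo_subset_Icc_self) (cl_closed G _ a0 (by linarith))
  intro y hy
  obtain ⟨t, ht, rfl⟩ := h1 hy
  rcases eq_or_lt_of_le ht.1 with h2 | h2
  · right
    left
    rw [← h2, gamma_cp]
  rcases eq_or_lt_of_le ht.2 with h3 | h3
  · right
    right
    rw [h3, cl_b]
    rfl
  · left
    exact ⟨t, ⟨h2, h3⟩, rfl⟩

theorem base_mem_closure (G : Geo D) (M : LineNet G.L) (h : Dart n D.crossings) :
    D.base h ∈ closure (G.pc M h) := by
  have a0 := cp_nonneg G h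
  have a1 := cp_lt G M h
  have a2 := cp_nonneg G (M.flip h)
  have hc : ContinuousWithinAt (G.γ (G.L.ddir h)) (Ioo (G.cp h) (1 - G.cp (M.flip h))) (G.cp h) :=
    ((G.param (G.L.ddir h)).1 (G.cp h) ⟨a0, by linarith⟩).mono
      fun t ht => ⟨by linarith [ht.1], by linarith [ht.2]⟩
  rw [← gamma_cp G h]
  refine hc.mem_closure_image ?_
  rw [closure_Ioo a1.ne]
  exact ⟨le_rfl, a1.le⟩

end Pool.HexDraw
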