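import Pool.Agent.Lib.MP_8613e3_co_hex.C06

/-!
# Cnt (60): counting the vertex darts (pure combinatorics)

Fix the vertex `k`. For every `l ≠ k` choose a dart `f l` at `k` in `H k l`. By `disj` the map `l ↦ f l` from `{l | l ≠ k}` to the vertex darts at
`k` (which are also indexed by `{l | l ≠ k}`) is injective, so it is surjective. So every dart `w` at `k` is `f l` for some `l`, in particular
`inl w ∈ H k l`, and if `inl w ∈ H i j` then `{k,l} = {i,j}` by `disj`.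
-/

set_option autoImplicit false

namespace Pool.HexDraw

open Set

variable {n : ℕ} {X : Type}

/-- `H i j`: the darts on the arc from `i` to `j`. -/
structure Sys (n : ℕ) (X : Type) (N : Net n X) (H : Fin n → Fin n → Set (Dart n X)) : Prop where
  symm : ∀ i j, H i j = H j i
  flip : ∀ i j h, h ∈ H i j → N.flip h ∈ H i j
  two : ∀ i j, i ≠ j → ∀ x : X, (∀ c : CD X, c.1 = x → Sum.inr c ∉ H i j) ∨
    ∃ c c' : CD X, c.1 = x ∧ c'.1 = x ∧ c ≠ c' ∧ Sum.inr c ∈ H i j ∧ Sum.inr c' ∈ H i j ∧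
      ∀ c'' : CD X, c''.1 = x → Sum.inr c'' ∈ H i j → c'' = c ∨ c'' = c'
  start : ∀ i j, i ≠ j → ∃ v : VD n, v.1.1 = i ∧ Sum.inl v ∈ H i j
  disj : ∀ i j k l, i ≠ j → k ≠ l → ∀ h, h ∈ H i j → h ∈ H k l → (k = i ∧ l = j) ∨ (k = j ∧ l = i)

private theorem cnt_surj {N : Net n X} {H : Fin n → Fin n → Set (Dart n X)} (hH : Sys n X N H) (k : Fin n) :
    ∃ f : {l : Fin n // k ≠ l} → VD n, (∀ l, (Sum.inl (f l) : Dart n X) ∈ H k l.1) ∧
      ∀ w : VD n, w.1.1 = k → ∃ l, f l = w := by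
  have hst : ∀ l : {l : Fin n // k ≠ l}, ∃ v : VD n, v.1.1 = k ∧ (Sum.inl v : Dart n X) ∈ H k l.1 :=
    fun l => hH.start k l.1 l.2
  choose f hf1 hf2 using hst
  let g : {l : Fin n // k ≠ l} → {l : Fin n // k ≠ l} := fun l =>
    ⟨(f l).1.2, fun h => (f l).2 ((hf1 l).trans h)⟩
  have hfe : ∀ (l : {l : Fin n // k ≠ l}) (v : VD n), v.1.1 = k → (f l).1.2 = v.1.2 → f l = v := by
    intro l v h1 h2
    exact Subtype.ext (Prod.ext ((hf1 l).trans h1.symm) h2)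
  have hginj : Function.Injective g := by
    intro l l' h
    have h3 : f l = f l' := hfe l (f l') (hf1 l') (congrArg Subtype.val h)
    have h4 : (Sum.inl (f l) : Dart n X) ∈ H k l'.1 := by rw [h3]; exact hf2 l'
    rcases hH.disj k l.1 k l'.1 l.2 l'.2 _ (hf2 l) h4 with ⟨_, h5⟩ | ⟨h5, _⟩
    · exact Subtype.ext h5.symm
    · exact absurd h5 l.2
  have hgs : Function.Surjective g := Finite.surjective_of_injective hginj
  refine ⟨f, hf2, fun w hk => ?_⟩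
  obtain ⟨l, hl⟩ := hgs ⟨w.1.2, fun h => w.2 (hk.trans h)⟩
  exact ⟨l, hfe l w hk (congrArg Subtype.val hl)⟩

theorem Sys.vertex {N : Net n X} {H : Fin n → Fin n → Set (Dart n X)} (hH : Sys n X N H) {i j : Fin n} (hij : i ≠ j)
    {v : VD n} (hv : Sum.inl v ∈ H i j) : v.1.1 = i ∨ v.1.1 = j := by
  obtain ⟨f, hf, hs⟩ := cnt_surj hH v.1.1
  obtain ⟨l, hl⟩ := hs v rfl
  have hl2 : (Sum.inl v : Dart n X) ∈ H v.1.1 l.1 := by have := hf l; rwa [hl] at this
  rcases hH.disj i j v.1.1 l.1 hij l.2 _ hv hl2 with ⟨h, _⟩ | ⟨h, _⟩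
  · exact Or.inl h
  · exact Or.inr h

theorem Sys.unique {N : Net n X} {H : Fin n → Fin n → Set (Dart n X)} (hH : Sys n X N H) {i j : Fin n} (hij : i ≠ j)
    {v w : VD n} (hv : Sum.inl v ∈ H i j) (hw : Sum.inl w ∈ H i j) (hvw : v.1.1 = w.1.1) : v = w := by
  obtain ⟨f, hf, hs⟩ := cnt_surj hH w.1.1
  obtain ⟨l, rfl⟩ := hs v hvw
  obtain ⟨l', hl'⟩ := hs w rfl
  have hl2 : (Sum.inl w : Dart n X) ∈ H w.1.1 l'.1 := by have := hf l'; rwa [hl'] at this
  have key : l.1 = l'.1 := by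
    rcases hH.disj i j w.1.1 l.1 hij l.2 _ hv (hf l) with ⟨h1, h2⟩ | ⟨h1, h2⟩ <;>
    rcases hH.disj i j w.1.1 l'.1 hij l'.2 _ hw hl2 with ⟨h3, h4⟩ | ⟨h3, h4⟩
    · exact h2.trans h4.symm
    · exact absurd (h1.symm.trans h3) hij
    · exact absurd (h3.symm.trans h1) hij
    · exact h2.trans h4.symm
  rw [← hl', Subtype.ext key]

end Pool.HexDraw
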