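import Pool.Agent.Lib.MP_8613e3_im.Two
import Pool.Agent.Lib.MP_8613e3_im.All

/-!
# Conv: an arc of the system which passes through a crossing along two different strands turns there
-/

set_option autoImplicit false

namespace Pool.HexDraw

open Set Topology

variable {S : Type} [TopologicalSpace S] {n : ℕ} {D : Drawing S n}

/-- an edge through a crossing is one of the two strands there -/
theorem exists_strand (G : Geo D) {k l : Fin n} (hkl : k ≠ l) (x : D.crossings) (hx : x.1 ∈ D.edge k l) :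
    ∃ s d, G.L.dir (x, s, d) = ⟨(k, l), hkl⟩ := by
  set v : VD n := ⟨(k, l), hkl⟩ with hv
  have hxb : x.1 ∈ G.B.toBoxes.box x := by
    refine ⟨(0, 0), ?_, G.B.centre x⟩
    constructor <;> constructor <;> norm_num
  have hs : ∃ s, v = G.B.st x s ∨ v = (G.B.st x s).rev := by
    by_contra hcon
    push Not at hcon
    exact (disjoint_left.1 (G.B.edge_box x v hcon)) hxb hx
  obtain ⟨s, hs⟩ := hs
  have e0 : G.L.dir (x, s, false) = (G.L.dir (x, s, true)).rev := G.L.dir_opp x s true
  rcases G.dir_st x s true with e1 | e1 <;> rcases hs with e2 | e2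
  · exact ⟨s, true, by rw [e1, e2]⟩
  · exact ⟨s, false, by rw [e0, e1, e2]⟩
  · exact ⟨s, false, by rw [e0, e1, e2]; rfl⟩
  · exact ⟨s, true, by rw [e1, e2]⟩

theorem not_straight [T2Space S] (G : Geo D) (M : LineNet G.L) {i j : Fin n} {A : Set S} (hA : Good D i j A)
    {c c' : CD D.crossings} (h1 : c'.1 = c.1) (hxA : c.1.1 ∈ A) (hc : G.pc M (Sum.inr c) ⊆ A)
    (hc' : G.pc M (Sum.inr c') ⊆ A) (hs : c'.2.1 ≠ c.2.1) {k l : Fin n} (hkl : k ≠ l)
    (hx : c.1.1 ∈ D.edge k l) : ¬ ∀ᶠ y in 𝓝[D.edge k l] c.1.1, y ∈ A := by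
  intro hev
  obtain ⟨s, d, hd⟩ := exists_strand G hkl c.1 hx
  -- one of the two pieces of the strand `s` is not in `A`
  have key : ∃ d', ¬ G.pc M (Sum.inr (c.1, s, d')) ⊆ A := by
    by_contra hcon
    push Not at hcon
    obtain ⟨e, e', g1, g2, g3, g4, g5, g6⟩ := two_darts G M hA (x := c.1) hxA
    have a1 := g6 c rfl hc
    have a2 := g6 c' h1 hc'
    have a3 := g6 (c.1, s, true) rfl (hcon true)
    have a4 := g6 (c.1, s, false) rfl (hcon false)
    have hcc : c ≠ c' := by
      rintro rfl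
      exact hs rfl
    -- `{c, c'} = {e, e'}`
    have b : e.2.1 ≠ e'.2.1 := by
      rcases a1 with r1 | r1 <;> rcases a2 with r2 | r2
      · exact absurd (r1.trans r2.symm) hcc
      · rw [← r1, ← r2]
        exact fun h => hs h.symm
      · rw [← r1, ← r2]
        exact hs
      · exact absurd (r1.trans r2.symm) hcc
    rcases a3 with r3 | r3 <;> rcases a4 with r4 | r4
    · have := r3.trans r4.symm
      simp at this
    · apply b
      rw [← r3, ← r4]
    · apply b
      rw [← r3, ← r4]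
    · have := r3.trans r4.symm
      simp at this
  obtain ⟨d', hd'⟩ := key
  have hdis : ∀ y ∈ G.pc M (Sum.inr (c.1, s, d')), y ∉ A := by
    intro y hy hyA
    exact hd' (all_or_nothing G M hA ⟨y, hy, hyA⟩)
  have hsub : G.pc M (Sum.inr (c.1, s, d')) ⊆ D.edge k l := by
    have h2 := pc_sub_edge G M (Sum.inr (c.1, s, d'))
    change G.pc M (Sum.inr (c.1, s, d')) ⊆ D.edge (G.L.dir (c.1, s, d')).1.1 (G.L.dir (c.1, s, d')).1.2 at h2
    by_cases hdd : d' = d
    · subst hdd
      rw [hd] at h2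
      exact h2
    · have hd2 : d' = !d := by
        revert hdd
        cases d <;> cases d' <;> simp
      subst hd2
      rw [G.L.dir_opp, hd] at h2
      have h3 : D.edge (VD.rev (⟨(k, l), hkl⟩ : VD n)).1.1 (VD.rev (⟨(k, l), hkl⟩ : VD n)).1.2 = D.edge k l :=
        D.symm l k
      rw [h3] at h2
      exact h2
  have hcl : c.1.1 ∈ closure (G.pc M (Sum.inr (c.1, s, d'))) := base_mem_closure G M (Sum.inr (c.1, s, d'))
  rw [mem_closure_iff_nhdsWithin_neBot] at hcl
  have h3 : ∀ᶠ y in 𝓝[G.pc M (Sum.inr (c.1, s, d'))] c.1.1, y ∈ A := nhdsWithin_mono _ hsub hev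
  have h4 : ∀ᶠ y in 𝓝[G.pc M (Sum.inr (c.1, s, d'))] c.1.1, y ∈ G.pc M (Sum.inr (c.1, s, d')) :=
    self_mem_nhdsWithin
  obtain ⟨y, hy1, hy2⟩ := (h3.and h4).exists
  exact hdis y hy2 hy1

end Pool.HexDraw
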