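import Pool.Agent.Lib.MP_8613e3_im.Defs

/-!
# Cov (80): vertices, crossings and open pieces cover the union of the edges

`y = γ v t` with `v = (i,j)`, `0 < t < 1` (otherwise a vertex); assume that `y` is no crossing. The set of the darts `h` with
`ddir h = v` and `cp h ≤ t` is finite (`Finite D.crossings`: `(crossings_finite D).to_subtype`) and contains `inl v`; let `h`
be an element with `cp h` maximal. `cp h ≠ t` as `y` is neither a vertex nor a crossing. Let `g = flip h`, `ddir g = v.rev`. If `g = inl _`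
then `1 - cp g = 1 > t`. If `g = inr (x,s,d)`, then `inr (x,s,!d)` has `ddir = v` and `cp = 1 - cp g > cp h` (`cp_opp`, `cp_lt`); by
maximality `t < 1 - cp g` (equality is impossible, `y` is no crossing).
-/

set_option autoImplicit false

namespace Pool.HexDraw

open Set Topology

variable {S : Type} [TopologicalSpace S] {n : ℕ} {D : Drawing S n}

theorem skel_cover [T2Space S] (G : Geo D) (M : LineNet G.L) {y : S} (hy : y ∈ D.skel) :
    (∃ i, y = D.pt i) ∨ y ∈ D.crossings ∨ ∃ h, y ∈ G.pc M h := by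
  obtain ⟨i, j, hij, hy⟩ := hy
  obtain ⟨v, hv⟩ : ∃ v : VD n, v = ⟨(i, j), hij⟩ := ⟨_, rfl⟩
  have hp := G.param v
  have hyv : y ∈ D.edge v.1.1 v.1.2 := by rw [hv]; exact hy
  rw [← hp.2.2.2.2] at hyv
  obtain ⟨t, ht, hty⟩ := hyv
  rcases ht.1.eq_or_lt with h0 | h0
  · left
    exact ⟨v.1.1, by rw [← hty, ← h0, hp.2.2.1]⟩
  rcases ht.2.eq_or_lt with h1 | h1
  · left
    exact ⟨v.1.2, by rw [← hty, h1, hp.2.2.2.1]⟩
  by_cases hc : y ∈ D.crossings
  · exact Or.inr (Or.inl hc)
  right
  right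
  have hfin : Finite D.crossings := (crossings_finite D).to_subtype
  obtain ⟨h, ⟨hh1, hh2⟩, hmax⟩ := Set.exists_max_image
    {h : Dart n D.crossings | G.L.ddir h = v ∧ G.cp h ≤ t} G.cp (Set.toFinite _)
    ⟨Sum.inl v, rfl, h0.le⟩
  have hne : G.cp h ≠ t := by
    intro he
    have h2 := gamma_cp G h
    rw [hh1, he, hty] at h2
    cases h with
    | inl w =>
      have : (0 : ℝ) = t := he
      exact h0.ne this
    | inr c =>
      apply hc
      rw [h2]
      exact c.1.2
  have hlt : G.cp h < t := lt_of_le_of_ne hh2 hne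
  have hg : G.L.ddir (M.flip h) = v.rev := by rw [M.ddir_flip, hh1]
  have hcp := cp_lt G M h
  refine ⟨h, t, ⟨hlt, ?_⟩, by rw [hh1, hty]⟩
  rcases hgc : M.flip h with w | c
  · have : G.cp (Sum.inl w : Dart n D.crossings) = 0 := rfl
    rw [this]
    linarith
  · obtain ⟨x, s, d⟩ := c
    rw [hgc] at hg hcp
    by_contra hcon
    rw [not_lt] at hcon
    have h3 := cp_opp G x s d
    have h4 : G.L.ddir (Sum.inr (x, s, !d)) = v := by
      have h5 : G.L.ddir (Sum.inr (x, s, !d)) = (G.L.ddir (Sum.inr (x, s, d))).rev := G.L.dir_opp x s d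
      rw [h5, hg]
      rfl
    have h6 := hmax (Sum.inr (x, s, !d)) ⟨h4, by rw [h3]; exact hcon⟩
    rw [h3] at h6
    linarith

end Pool.HexDraw
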