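import Pool.Agent.Lib.MP_8613e3_co_hex.H02

/-!
# Systems of arcs in the union of the edges of a drawing: definitions
-/

set_option autoImplicit false

namespace Pool.HexDraw

open Set Topology

variable {S : Type} [TopologicalSpace S] {n : ℕ}

/-- The union of the edges of a drawing. -/
def Drawing.skel (D : Drawing S n) : Set S := {y | ∃ i j, i ≠ j ∧ y ∈ D.edge i j}

/-- A system of simple arcs, one for each pair of vertices, contained in the union of the edges of the drawing, any
two of which have only finitely many common points. -/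
structure Drawing.ArcSystem (D : Drawing S n) (A : Fin n → Fin n → Set S) : Prop where
  symm : ∀ i j, A i j = A j i
  arc : ∀ i j, i ≠ j → IsArc (D.pt i) (D.pt j) (A i j)
  sub : ∀ i j, i ≠ j → A i j ⊆ D.skel
  fin : ∀ i j k l, i ≠ j → k ≠ l → ¬ ((k = i ∧ l = j) ∨ (k = j ∧ l = i)) → (A i j ∩ A k l).Finite

/-- The crossings of the drawing at which an arc of the system turns: the arc `A i j` passes through the crossing `x`
but contains a whole neighbourhood of `x` in none of the edges through `x`. -/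
def Drawing.turns (D : Drawing S n) (A : Fin n → Fin n → Set S) : Set S :=
  {x | x ∈ D.crossings ∧ ∃ i j, i ≠ j ∧ x ∈ A i j ∧
    ∀ k l, k ≠ l → x ∈ D.edge k l → ¬ ∀ᶠ y in 𝓝[D.edge k l] x, y ∈ A i j}

variable {D : Drawing S n}

/-- The position of the vertex or crossing at which the dart `h` begins, on the oriented edge of `h`. -/
noncomputable def Geo.cp (G : Geo D) : Dart n D.crossings → ℝ
  | Sum.inl _ => 0
  | Sum.inr c => (G.ctr c.1 c.2.1 c.2.2).choose

/-- The vertex or crossing at which the dart begins. -/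
def Drawing.base (D : Drawing S n) : Dart n D.crossings → S
  | Sum.inl v => D.pt v.1.1
  | Sum.inr c => c.1.1

/-- The open piece of edge which leaves along the dart `h`: it ends where the dart `flip h` begins. -/
def Geo.pc (G : Geo D) (M : LineNet G.L) (h : Dart n D.crossings) : Set S :=
  G.γ (G.L.ddir h) '' Ioo (G.cp h) (1 - G.cp (M.flip h))

/-- `A` is a simple arc from `pt i` to `pt j` in the union of the edges. -/
structure Good (D : Drawing S n) (i j : Fin n) (A : Set S) : Prop where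
  ne : i ≠ j
  arc : IsArc (D.pt i) (D.pt j) A
  sub : A ⊆ D.skel

theorem cp_le_dpos (G : Geo D) (h : Dart n D.crossings) : G.cp h ≤ G.L.dpos h := by
  cases h with
  | inl v => exact le_refl _
  | inr c => exact (G.ctr c.1 c.2.1 c.2.2).choose_spec.1.2.le

theorem cp_nonneg (G : Geo D) (h : Dart n D.crossings) : 0 ≤ G.cp h := by
  cases h with
  | inl v => exact le_refl _
  | inr c =>
    have h1 := (G.ctr c.1 c.2.1 c.2.2).choose_spec.1.1
    have h2 := G.L.pos_lt (c.1, c.2.1, !c.2.2)
    change 0 ≤ (G.ctr c.1 c.2.1 c.2.2).choose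
    linarith

theorem cp_pos (G : Geo D) (c : CD D.crossings) : 0 < G.cp (Sum.inr c) := by
  have h1 := (G.ctr c.1 c.2.1 c.2.2).choose_spec.1.1
  have h2 := G.L.pos_lt (c.1, c.2.1, !c.2.2)
  change 0 < (G.ctr c.1 c.2.1 c.2.2).choose
  linarith

theorem gamma_cp (G : Geo D) (h : Dart n D.crossings) : G.γ (G.L.ddir h) (G.cp h) = D.base h := by
  cases h with
  | inl v => exact (G.param v).2.2.1
  | inr c => exact (G.ctr c.1 c.2.1 c.2.2).choose_spec.2

theorem cp_lt (G : Geo D) (M : LineNet G.L) (h : Dart n D.crossings) : G.cp h < 1 - G.cp (M.flip h) := by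
  have h1 := M.dpos_flip h
  have h2 := cp_le_dpos G h
  have h3 := cp_le_dpos G (M.flip h)
  linarith

theorem cp_lt_one (G : Geo D) (h : Dart n D.crossings) : G.cp h < 1 := by
  cases h with
  | inl v => exact zero_lt_one
  | inr c => exact lt_of_le_of_lt (cp_le_dpos G (Sum.inr c)) (G.L.pos_lt c)

/-- the opposite dart at a crossing lies at the same place of the edge -/
theorem cp_opp (G : Geo D) (x : D.crossings) (s d : Bool) :
    G.cp (Sum.inr (x, s, !d)) = 1 - G.cp (Sum.inr (x, s, d)) := by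
  have h1 := gamma_cp G (Sum.inr (x, s, d))
  have h2 := gamma_cp G (Sum.inr (x, s, !d))
  have h3 : G.L.ddir (Sum.inr (x, s, !d)) = (G.L.ddir (Sum.inr (x, s, d))).rev := G.L.dir_opp x s d
  rw [h3, G.rev] at h2
  have h4 : G.γ (G.L.ddir (Sum.inr (x, s, d))) (1 - G.cp (Sum.inr (x, s, !d))) =
      G.γ (G.L.ddir (Sum.inr (x, s, d))) (G.cp (Sum.inr (x, s, d))) := by
    rw [h2, h1]
    rfl
  have a1 := cp_nonneg G (Sum.inr (x, s, !d))
  have a2 := cp_lt_one G (Sum.inr (x, s, !d))
  have a3 := cp_nonneg G (Sum.inr (x, s, d))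
  have a4 := cp_lt_one G (Sum.inr (x, s, d))
  have h5 := (G.param (G.L.ddir (Sum.inr (x, s, d)))).2.1 ⟨by linarith, by linarith⟩ ⟨a3, a4.le⟩ h4
  linarith

theorem pc_flip (G : Geo D) (M : LineNet G.L) (h : Dart n D.crossings) : G.pc M (M.flip h) = G.pc M h := by
  unfold Geo.pc
  rw [M.ddir_flip, M.flip_flip]
  ext y
  constructor
  · rintro ⟨t, ⟨h1, h2⟩, rfl⟩
    refine ⟨1 - t, ⟨by linarith, by linarith⟩, ?_⟩
    rw [G.rev]
  · rintro ⟨t, ⟨h1, h2⟩, rfl⟩
    refine ⟨1 - t, ⟨by linarith, by linarith⟩, ?_⟩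
    rw [G.rev]
    congr 1
    ring

theorem pc_sub_edge (G : Geo D) (M : LineNet G.L) (h : Dart n D.crossings) :
    G.pc M h ⊆ D.edge (G.L.ddir h).1.1 (G.L.ddir h).1.2 := by
  rintro y ⟨t, ⟨h1, h2⟩, rfl⟩
  have a1 := cp_nonneg G h
  have a2 := cp_nonneg G (M.flip h)
  have h3 := (G.param (G.L.ddir h)).2.2.2.2
  rw [← h3]
  exact mem_image_of_mem _ ⟨by linarith, by linarith⟩

end Pool.HexDraw
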