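import Pool.Agent.Lib.MP_8613e3_im.NoB

/-!
# Dis (70): different open pieces are disjoint

Let `y = γ v t = γ v' t'`, `v = ddir h`, `v' = ddir h'`. If `v' ≠ v, v.rev` then `y` lies on two different edges, so it is a vertex
(`D.adjacent`) or a crossing: impossible by NoB. If `v' = v.rev` replace `h'` by `flip h'` (`pc_flip`, `M.ddir_flip`, `M.flip_flip`). So let
`v' = v`, then `t = t'`. If `cp h < cp h'` then `cp h'` lies in the open interval of `h`, so `base h' ∈ pc h` (`gamma_cp`), impossible by NoB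
(`base h'` is a crossing or a vertex). Same for `cp h' < cp h`. So `cp h = cp h'` and `base h = base h'`; both are `inl v` or
both are crossing darts at the same crossing with the same `dir`, hence equal (`dir_opp`, `st_disj`/`dir_st`: the two strands lie on disjoint edges;
`v ≠ v.rev`).
-/

set_option autoImplicit false

namespace Pool.HexDraw

open Set Topology

variable {S : Type} [TopologicalSpace S] {n : ℕ} {D : Drawing S n}

private theorem two_edges (D : Drawing S n) {y : S} (v v' : VD n) (h1 : v' ≠ v) (h2 : v' ≠ v.rev)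
    (e1 : y ∈ D.edge v.1.1 v.1.2) (e2 : y ∈ D.edge v'.1.1 v'.1.2) : (∃ i, y = D.pt i) ∨ y ∈ D.crossings := by
  obtain ⟨⟨a, b⟩, hab⟩ := v
  obtain ⟨⟨c, d⟩, hcd⟩ := v'
  change a ≠ b at hab
  change c ≠ d at hcd
  change y ∈ D.edge a b at e1
  change y ∈ D.edge c d at e2
  have e1' : y ∈ D.edge b a := by rw [D.symm]; exact e1
  have e2' : y ∈ D.edge d c := by rw [D.symm]; exact e2
  have g1 : ¬ (c = a ∧ d = b) := by
    rintro ⟨rfl, rfl⟩
    exact h1 rfl
  have g2 : ¬ (c = b ∧ d = a) := by
    rintro ⟨rfl, rfl⟩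
    exact h2 rfl
  have key : ∀ i j k : Fin n, i ≠ j → i ≠ k → j ≠ k → y ∈ D.edge i j → y ∈ D.edge i k → ∃ i, y = D.pt i := by
    intro i j k h3 h4 h5 h6 h7
    have h8 : y ∈ D.edge i j ∩ D.edge i k := ⟨h6, h7⟩
    rw [D.adjacent i j k h3 h4 h5] at h8
    exact ⟨i, h8⟩
  by_cases hac : c = a
  · subst hac
    exact Or.inl (key c b d hab hcd (fun h => g1 ⟨rfl, h.symm⟩) e1 e2)
  by_cases had : d = a
  · subst had
    exact Or.inl (key d b c hab hcd.symm (fun h => g2 ⟨h.symm, rfl⟩) e1 e2')
  by_cases hbc : c = b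
  · subst hbc
    exact Or.inl (key c a d hab.symm hcd (fun h => had h.symm) e1' e2)
  by_cases hbd : d = b
  · subst hbd
    exact Or.inl (key d a c hab.symm hcd.symm (fun h => hac h.symm) e1' e2')
  exact Or.inr ⟨a, b, c, d, hab, hcd,
    ⟨fun h => hac h.symm, fun h => had h.symm, fun h => hbc h.symm, fun h => hbd h.symm⟩, e1, e2⟩

private theorem same (G : Geo D) (M : LineNet G.L) {h h' : Dart n D.crossings} {y : S} (hy : y ∈ G.pc M h)
    (hy' : y ∈ G.pc M h') (hd : G.L.ddir h' = G.L.ddir h) : h' = h := by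
  have key : ∀ g g' : Dart n D.crossings, G.L.ddir g' = G.L.ddir g → y ∈ G.pc M g → y ∈ G.pc M g' →
      ¬ G.cp g < G.cp g' := by
    intro g g' hg hy hy' hlt
    obtain ⟨t, ⟨h1, h2⟩, h3⟩ := hy
    obtain ⟨t', ⟨h1', h2'⟩, h3'⟩ := hy'
    have a1 := cp_nonneg G g
    have a2 := cp_nonneg G (M.flip g)
    have a3 := cp_nonneg G g'
    have a4 := cp_nonneg G (M.flip g')
    have h4 : t = t' := by
      rw [hg] at h3'
      exact (G.param (G.L.ddir g)).2.1 ⟨by linarith, by linarith⟩ ⟨by linarith, by linarith⟩ (h3.trans h3'.symm)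
    have h5 : D.base g' ∈ G.pc M g := by
      have h6 := gamma_cp G g'
      rw [hg] at h6
      rw [← h6]
      exact ⟨G.cp g', ⟨hlt, by linarith⟩, rfl⟩
    cases g' with
    | inl v => exact pc_ne_pt G M h5 v.1.1 rfl
    | inr c => exact pc_not_crossing G M h5 c.1.2
  have h1 : G.cp h = G.cp h' := le_antisymm (not_lt.1 (key h' h hd.symm hy' hy)) (not_lt.1 (key h h' hd hy hy'))
  clear key hy hy'
  rcases h with v | ⟨x, s, d⟩ <;> rcases h' with v' | ⟨x', s', d'⟩
  · exact congrArg Sum.inl hd
  · have h2 := cp_pos G (x', s', d')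
    rw [← h1] at h2
    exact absurd h2 (lt_irrefl _)
  · have h2 := cp_pos G (x, s, d)
    rw [h1] at h2
    exact absurd h2 (lt_irrefl _)
  · by_cases hxs : (x, s) = (x', s')
    · obtain ⟨rfl, rfl⟩ := Prod.mk.inj hxs
      by_cases hdd : d' = d
      · rw [hdd]
      · exfalso
        have h2 : d' = !d := by
          revert hdd
          cases d <;> cases d' <;> simp
        subst h2
        have h3 := G.L.dir_opp x s d
        exact VD.rev_ne _ (h3.symm.trans hd)
    · exfalso
      have b1 := (G.ctr x s d).choose_spec.1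
      have b2 := (G.ctr x' s' d').choose_spec.1
      change (G.ctr x s d).choose = (G.ctr x' s' d').choose at h1
      rcases G.L.sep x s d x' s' d' hd.symm hxs with h3 | h3
      · have := b1.2
        have := b2.1
        linarith
      · have := b1.1
        have := b2.2
        linarith

theorem pc_disj (G : Geo D) (M : LineNet G.L) {h h' : Dart n D.crossings} {y : S} (hy : y ∈ G.pc M h)
    (hy' : y ∈ G.pc M h') : h' = h ∨ h' = M.flip h := by
  by_cases hv : G.L.ddir h' = G.L.ddir h
  · exact Or.inl (same G M hy hy' hv)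
  by_cases hr : G.L.ddir h' = (G.L.ddir h).rev
  · right
    have h1 : y ∈ G.pc M (M.flip h') := by rw [pc_flip]; exact hy'
    have h2 := same G M hy h1 (by rw [M.ddir_flip, hr, VD.rev_rev])
    rw [← h2, M.flip_flip]
  · exfalso
    rcases two_edges D (G.L.ddir h) (G.L.ddir h') hv hr (pc_sub_edge G M h hy) (pc_sub_edge G M h' hy') with ⟨i, hi⟩ | hc
    · exact pc_ne_pt G M hy i hi
    · exact pc_not_crossing G M hy hc

end Pool.HexDraw
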