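import Pool.Agent.Lib.MP_8613e3_co_hex.C06

/-!
# Ends: every trail ends (pure combinatorics, independent of everything else)

`exists_trail`: the trail from `v` visits new crossing darts as long as it has not ended: a repetition would give,
by reversing, two different walks back to `v`. `trail_ne`: a trail from `v` to `v` would be its own reversal, and a
fixed point of `flip` or of `mate ω` would be in its middle.
-/

set_option autoImplicit false

namespace Pool.HexDraw

open Set

variable {n : ℕ} {X : Type}

private theorem ends_step {N : Net n X} {ω : State X} {v : VD n} (k : ℕ) :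
    (∃ l w, N.Trail ω v l w) ∨ ∃ (l : List (CD X)) (c : CD X), l.length = k ∧
      N.Walk ω (N.flip (Sum.inl v)) l (Sum.inr c) ∧ (l ++ [c]).Nodup := by
  induction k with
  | zero =>
    rcases hg : N.flip (Sum.inl v) with w | c
    · exact Or.inl ⟨[], w, hg⟩
    · exact Or.inr ⟨[], c, rfl, rfl, by simp⟩
  | succ k ih =>
    rcases ih with h | ⟨l, c, hl, hw, hn⟩
    · exact Or.inl h
    have h1 : N.Walk ω (N.flip (Sum.inl v)) (l ++ [c]) (N.flip (Sum.inr (mate ω c))) :=
      walk_append.2 ⟨Sum.inr c, hw, rfl, rfl⟩
    rcases hg : N.flip (Sum.inr (mate ω c)) with w | c'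
    · rw [hg] at h1
      exact Or.inl ⟨l ++ [c], w, h1⟩
    · rw [hg] at h1
      refine Or.inr ⟨l ++ [c], c', by simp [hl], h1, ?_⟩
      rw [List.nodup_append]
      refine ⟨hn, List.nodup_singleton _, ?_⟩
      rintro a ha b hb rfl
      rw [List.mem_singleton] at hb
      subst hb
      obtain ⟨l1, l2, e⟩ := List.append_of_mem ha
      have h2 := h1
      rw [e] at h2
      obtain ⟨m, h3, h4⟩ := walk_append.1 h2
      have hm : m = Sum.inr a := h4.1
      rw [hm] at h3
      have r1 := walk_rev h3
      have r2 := walk_rev h1
      rw [N.flip_flip] at r1 r2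
      have h5 := congrArg List.length (walk_det r1 r2).1
      rw [e] at h5
      simp at h5
      omega

theorem exists_trail [Finite X] (N : Net n X) (ω : State X) (v : VD n) : ∃ l w, N.Trail ω v l w := by
  have : Fintype (CD X) := Fintype.ofFinite _
  rcases ends_step (N := N) (ω := ω) (v := v) (Fintype.card (CD X)) with h | ⟨l, c, hl, -, hn⟩
  · exact h
  · have h1 := hn.length_le_card
    rw [List.length_append, hl] at h1
    simp at h1

private theorem ends_aux {N : Net n X} {ω : State X} (k : ℕ) : ∀ (l : List (CD X)) (g : Dart n X),
    l.length ≤ k → N.Walk ω g l (N.flip g) → l = (l.map (mate ω)).reverse → False := by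
  induction k with
  | zero =>
    intro l g hl h _
    have h0 : l = [] := List.length_eq_zero_iff.1 (Nat.le_zero.1 hl)
    subst h0
    exact N.flip_ne g (Eq.symm h)
  | succ k ih =>
    intro l g hl h e
    cases l with
    | nil => exact N.flip_ne g (Eq.symm h)
    | cons c r =>
      rcases List.eq_nil_or_concat r with rfl | ⟨mid, d, rfl⟩
      · simp only [List.map_cons, List.map_nil, List.reverse_cons, List.reverse_nil, List.nil_append,
          List.cons.injEq, and_true] at e
        exact mate_ne ω c e.symm
      · rw [List.concat_eq_append] at h e hl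
        obtain ⟨hg, h1⟩ := h
        obtain ⟨m, h2, h3⟩ := walk_append.1 h1
        have hm : m = Sum.inr d := h3.1
        rw [hm] at h2
        simp only [List.map_cons, List.map_append, List.map_nil, List.reverse_cons, List.reverse_append,
          List.reverse_nil, List.nil_append, List.cons_append, List.cons.injEq] at e
        obtain ⟨e1, e2⟩ := e
        obtain ⟨e3, e4⟩ := List.append_inj' e2 rfl
        have e5 : d = mate ω c := by simpa using e4
        refine ih mid (N.flip (Sum.inr (mate ω c))) ?_ ?_ e3
        · simp at hl
          omega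
        · rw [N.flip_flip, ← e5]
          rw [← e5] at h2
          exact h2

theorem trail_ne {N : Net n X} {ω : State X} {v w : VD n} {l : List (CD X)} (h : N.Trail ω v l w) : w ≠ v := by
  rintro rfl
  have h1 := trail_rev h
  have h2 := (walk_det h h1).1
  refine ends_aux (N := N) l.length l (N.flip (Sum.inl w)) le_rfl ?_ h2
  rw [N.flip_flip]
  exact h

end Pool.HexDraw
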