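import Pool.Agent.Lib.MP_8613e3_im.Cnt
import Pool.Agent.Lib.MP_8613e3_im.Ends

/-!
# Net (110): the state of a system (pure combinatorics)

`ω x := some (xor c.2.2 c'.2.2)` if there are `i ≠ j` and darts `c ≠ c'` at `x` in `H i j` with `c'.2.1 ≠ c.2.1`, otherwise `none`. Claim:
`mate ω e = e'` for all darts `e ≠ e'` at `x` in one `H k l` (`k ≠ l`): if `{k,l} = {i,j}` then `{e,e'} = {c,c'}` by `two`; otherwise `{e,e'}` is disjoint from
`{c,c'}` by `disj`, so it is the complement in the four darts at `x` (compute with Booleans, `c01_mate_some`, `mate_none`).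
The trail from the dart `v` at `i` in `H i j` (`start`) ends (`exists_trail`) in some `w ≠ v` (`trail_ne`), and all its darts stay in
`H i j` (induction on `Walk`; `flip`, claim), so `inl w ∈ H i j`, and `w.1.1 = i` is impossible by `Sys.unique`, so `w.1.1 = j` by `Sys.vertex`.
-/

set_option autoImplicit false

namespace Pool.HexDraw

open Set

variable {n : ℕ} {X : Type}

/-- the turning pairs at a crossing -/
private def Turn (H : Fin n → Fin n → Set (Dart n X)) (x : X) (q : CD X × CD X) : Prop :=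
  q.1.1 = x ∧ q.2.1 = x ∧ q.2.2.1 ≠ q.1.2.1 ∧ ∃ i j, i ≠ j ∧ Sum.inr q.1 ∈ H i j ∧ Sum.inr q.2 ∈ H i j

open Classical in
private noncomputable def om (H : Fin n → Fin n → Set (Dart n X)) : State X := fun x =>
  if h : ∃ q, Turn H x q then some (xor h.choose.1.2.2 h.choose.2.2.2) else none

private theorem net_bool : ∀ s d s' d' t u t' u' : Bool, s' ≠ s → ¬ (t = s ∧ u = d) → ¬ (t = s' ∧ u = d') →
    ¬ (t' = s ∧ u' = d) → ¬ (t' = s' ∧ u' = d') → ¬ (t = t' ∧ u = u') →
    (!t) = t' ∧ xor (xor d d') u = u' := by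
  decide

private theorem net_bool2 : ∀ s d s' d' : Bool, s' ≠ s →
    ((!s) = s' ∧ xor (xor d d') d = d') ∧ ((!s') = s ∧ xor (xor d d') d' = d) := by
  decide

private theorem net_claim {N : Net n X} {H : Fin n → Fin n → Set (Dart n X)} (hH : Sys n X N H) {k l : Fin n}
    (hkl : k ≠ l) {e e' : CD X} (he1 : e'.1 = e.1) (hne : e ≠ e') (he : Sum.inr e ∈ H k l)
    (he' : Sum.inr e' ∈ H k l) : mate (om H) e = e' := by
  obtain ⟨x, t, u⟩ := e
  obtain ⟨x', t', u'⟩ := e'
  have hx : x' = x := he1
  subst hx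
  by_cases h : ∃ q, Turn H x' q
  · have hom : om H x' = some (xor h.choose.1.2.2 h.choose.2.2.2) := by
      unfold om
      rw [dif_pos h]
    have hq := h.choose_spec
    obtain ⟨q, hqq⟩ : ∃ q, q = h.choose := ⟨_, rfl⟩
    rw [← hqq] at hq hom
    clear hqq
    obtain ⟨⟨x1, s, d⟩, ⟨x2, s', d'⟩⟩ := q
    obtain ⟨h1, h2, h3, i, j, hij, h4, h5⟩ := hq
    have hx1 : x1 = x' := h1
    have hx2 : x2 = x' := h2
    subst hx1
    subst hx2
    have h3' : s' ≠ s := h3
    rw [c01_mate_some (c := (x2, t, u)) hom]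
    by_cases hp : (k = i ∧ l = j) ∨ (k = j ∧ l = i)
    · have hHe : H k l = H i j := by
        rcases hp with ⟨rfl, rfl⟩ | ⟨rfl, rfl⟩
        · rfl
        · exact hH.symm _ _
      rw [hHe] at he he'
      rcases hH.two i j hij x2 with h6 | ⟨c1, c2, h6, h7, h8, h9, h10, h11⟩
      · exact absurd h4 (h6 _ rfl)
      · have a1 := h11 _ rfl h4
        have a2 := h11 _ rfl h5
        have a3 := h11 _ rfl he
        have a4 := h11 _ rfl he'
        have hcc : ((x2, s, d) : CD X) ≠ (x2, s', d') := by
          intro hh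
          exact h3' (congrArg (fun z : CD X => z.2.1) hh).symm
        have b1 : ((x2, t, u) : CD X) = (x2, s, d) ∧ ((x2, t', u') : CD X) = (x2, s', d') ∨
            ((x2, t, u) : CD X) = (x2, s', d') ∧ ((x2, t', u') : CD X) = (x2, s, d) := by
          rcases a1 with a1 | a1 <;> rcases a2 with a2 | a2
          · exact absurd (a1.trans a2.symm) hcc
          · rcases a3 with a3 | a3 <;> rcases a4 with a4 | a4
            · exact absurd (a3.trans a4.symm) hne
            · exact Or.inl ⟨a3.trans a1.symm, a4.trans a2.symm⟩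
            · exact Or.inr ⟨a3.trans a2.symm, a4.trans a1.symm⟩
            · exact absurd (a3.trans a4.symm) hne
          · rcases a3 with a3 | a3 <;> rcases a4 with a4 | a4
            · exact absurd (a3.trans a4.symm) hne
            · exact Or.inr ⟨a3.trans a2.symm, a4.trans a1.symm⟩
            · exact Or.inl ⟨a3.trans a1.symm, a4.trans a2.symm⟩
            · exact absurd (a3.trans a4.symm) hne
          · exact absurd (a1.trans a2.symm) hcc
        have b2 := net_bool2 s d s' d' h3'
        rcases b1 with ⟨b3, b4⟩ | ⟨b3, b4⟩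
        · simp only [Prod.mk.injEq, true_and] at b3 b4 ⊢
          rw [b3.1, b3.2, b4.1, b4.2]
          exact b2.1
        · simp only [Prod.mk.injEq, true_and] at b3 b4 ⊢
          rw [b3.1, b3.2, b4.1, b4.2]
          exact b2.2
    · have c1 : ∀ z : CD X, Sum.inr z ∈ H k l → Sum.inr z ∈ H i j → False :=
        fun z z1 z2 => hp (hH.disj i j k l hij hkl _ z2 z1)
      have c2 : ¬ (t = s ∧ u = d) := by
        rintro ⟨rfl, rfl⟩
        exact c1 _ he h4
      have c3 : ¬ (t = s' ∧ u = d') := by
        rintro ⟨rfl, rfl⟩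
        exact c1 _ he h5
      have c4 : ¬ (t' = s ∧ u' = d) := by
        rintro ⟨rfl, rfl⟩
        exact c1 _ he' h4
      have c5 : ¬ (t' = s' ∧ u' = d') := by
        rintro ⟨rfl, rfl⟩
        exact c1 _ he' h5
      have c6 : ¬ (t = t' ∧ u = u') := by
        rintro ⟨rfl, rfl⟩
        exact hne rfl
      have c7 := net_bool s d s' d' t u t' u' h3' c2 c3 c4 c5 c6
      simp only [Prod.mk.injEq, true_and]
      exact c7
  · have hom : om H x' = none := by
      unfold om
      rw [dif_neg h]
    rw [mate_none (c := (x', t, u)) hom]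
    have ht : t' = t := by
      by_contra hc
      exact h ⟨((x', t, u), (x', t', u')), rfl, rfl, hc, k, l, hkl, he, he'⟩
    subst ht
    have hu : (!u) = u' := by
      cases u <;> cases u'
      · exact absurd rfl hne
      · rfl
      · rfl
      · exact absurd rfl hne
    rw [← hu]

private theorem net_mate {N : Net n X} {H : Fin n → Fin n → Set (Dart n X)} (hH : Sys n X N H) {i j : Fin n}
    (hij : i ≠ j) {c : CD X} (hc : Sum.inr c ∈ H i j) : Sum.inr (mate (om H) c) ∈ H i j := by
  rcases hH.two i j hij c.1 with h | ⟨c1, c2, h1, h2, h3, h4, h5, h6⟩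
  · exact absurd hc (h c rfl)
  · rcases h6 c rfl hc with h7 | h7
    · rw [h7, net_claim hH hij (h2.trans h1.symm) h3 h4 h5]
      exact h5
    · rw [h7, net_claim hH hij (h1.trans h2.symm) (Ne.symm h3) h5 h4]
      exact h4

private theorem net_walk {N : Net n X} {H : Fin n → Fin n → Set (Dart n X)} (hH : Sys n X N H) {i j : Fin n}
    (hij : i ≠ j) : ∀ (l : List (CD X)) (g w : Dart n X), g ∈ H i j → N.Walk (om H) g l w → w ∈ H i j := by
  intro l
  induction l with
  | nil =>
    intro g w hg h
    have h1 : g = w := h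
    rw [← h1]
    exact hg
  | cons c l ih =>
    intro g w hg h
    obtain ⟨h1, h2⟩ := h
    rw [h1] at hg
    exact ih _ w (hH.flip i j _ (net_mate hH hij hg)) h2

theorem net_state [Finite X] {N : Net n X} {H : Fin n → Fin n → Set (Dart n X)} (hH : Sys n X N H) :
    ∃ ω : State X, N.K ω ∧ ∀ i j (c c' : CD X), i ≠ j → c'.1 = c.1 → c ≠ c' → Sum.inr c ∈ H i j →
      Sum.inr c' ∈ H i j → ω c.1 = none → c'.2.1 = c.2.1 := by
  refine ⟨om H, ?_, ?_⟩
  · intro i j hij
    obtain ⟨v, hv, hvH⟩ := hH.start i j hij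
    obtain ⟨l, w, hT⟩ := exists_trail N (om H) v
    have hw : Sum.inl w ∈ H i j := net_walk hH hij l _ _ (hH.flip i j _ hvH) hT
    refine ⟨v, l, w, hv, ?_, hT⟩
    rcases hH.vertex hij hw with h | h
    · exact absurd (hH.unique hij hw hvH (h.trans hv.symm)) (trail_ne hT)
    · exact h
  · intro i j c c' hij h1 _ h3 h4 h5
    by_contra hc
    have h : ∃ q, Turn H c.1 q := ⟨(c, c'), rfl, h1, hc, i, j, hij, h3, h4⟩
    unfold om at h5
    rw [dif_pos h] at h5
    exact absurd h5 (by simp)

end Pool.HexDraw
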