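import Pool.Agent.Lib.MP_8613e3_im.Rig
import Pool.Agent.Lib.MP_8613e3_im.Net
import Pool.Agent.Lib.MP_8613e3_im.Conv

/-!
# Rigidity of optimal drawings
-/

set_option autoImplicit false

namespace Pool.HexDraw

open Set Topology

variable {S : Type} [TopologicalSpace S] {n : ℕ} {D : Drawing S n}

private theorem isCompact_arc {p q : S} {A : Set S} (hA : IsArc p q A) : IsCompact A := by
  obtain ⟨α, h1, -, -, -, h2⟩ := hA
  rw [← h2]
  exact isCompact_Icc.image_of_continuousOn h1

private theorem pc_infinite (G : Geo D) (M : LineNet G.L) (h : Dart n D.crossings) : (G.pc M h).Infinite := by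
  unfold Geo.pc
  apply Set.Infinite.image
  · have h1 := (G.param (G.L.ddir h)).2.1
    apply h1.mono
    intro t ht
    have a1 := cp_nonneg G h
    have a2 := cp_nonneg G (M.flip h)
    exact ⟨by linarith [ht.1], by linarith [ht.2]⟩
  · exact Set.Ioo_infinite (cp_lt G M h)

theorem sys_of_arcs [T2Space S] (G : Geo D) (M : LineNet G.L) {A : Fin n → Fin n → Set S} (hA : D.ArcSystem A) :
    Sys n D.crossings M.toNet (fun i j => {h | G.pc M h ⊆ A i j}) := by
  have hg : ∀ i j, i ≠ j → Good D i j (A i j) := fun i j hij => ⟨hij, hA.arc i j hij, hA.sub i j hij⟩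
  refine ⟨?_, ?_, ?_, ?_, ?_⟩
  · intro i j
    simp only [hA.symm i j]
  · intro i j h hh
    simp only [mem_setOf_eq] at hh ⊢
    rw [pc_flip]
    exact hh
  · intro i j hij x
    by_cases hx : x.1 ∈ A i j
    · right
      obtain ⟨c, c', h1, h2, h3, h4, h5, h6⟩ := two_darts G M (hg i j hij) hx
      exact ⟨c, c', h1, h2, h3, h4, h5, h6⟩
    · left
      rintro c rfl hc
      apply hx
      have h1 : G.pc M (Sum.inr c) ⊆ A i j := hc
      have h2 := closure_minimal h1 (isCompact_arc (hA.arc i j hij)).isClosed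
      exact h2 (base_mem_closure G M (Sum.inr c))
  · intro i j hij
    obtain ⟨v, h1, h2⟩ := vertex_dart G M (hg i j hij) (k := i) (by
      obtain ⟨α, -, -, h3, -, h4⟩ := hA.arc i j hij
      rw [← h4, ← h3]
      exact mem_image_of_mem _ ⟨le_refl _, zero_le_one⟩)
    exact ⟨v, h1, h2⟩
  · intro i j k l hij hkl h h1 h2
    by_contra hne
    have h3 := hA.fin i j k l hij hkl hne
    exact pc_infinite G M h (h3.subset (subset_inter h1 h2))

open Classical in
theorem rigidity [T2Space S] (D : Drawing S n) (A : Fin n → Fin n → Set S) (hA : D.ArcSystem A) :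
    (∃ D' : Drawing S n, D'.cr + (D.turns A).ncard ≤ D.cr) ∧
    (D.turns A = ∅ → ∀ i j, i ≠ j → A i j = D.edge i j) ∧
    (D.Optimal → ∀ i j, i ≠ j → A i j = D.edge i j) := by
  have hfin : Finite D.crossings := (crossings_finite D).to_subtype
  obtain ⟨G⟩ := exists_geo D
  obtain ⟨M⟩ := exists_lineNet G.L
  obtain ⟨T, hT⟩ := exists_topNet G M
  have hg : ∀ i j, i ≠ j → Good D i j (A i j) := fun i j hij => ⟨hij, hA.arc i j hij, hA.sub i j hij⟩
  have hS := sys_of_arcs G M hA
  obtain ⟨ω, hK, hω⟩ := net_state hS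
  rw [← hT] at hK
  obtain ⟨ω', hG, hle⟩ := exists_good hK
  obtain ⟨D', hD'⟩ := realise T hG
  have hcr : D.cr = Nat.card D.crossings := by
    unfold Drawing.cr
    rw [Nat.card_coe_set_eq]
  -- the turning crossings are smoothed
  have hturn : D.turns A ⊆ Subtype.val '' {x : D.crossings | ω x ≠ none} := by
    rintro x ⟨hx, i, j, hij, hxA, ht⟩
    refine ⟨⟨x, hx⟩, ?_, rfl⟩
    intro hn
    obtain ⟨c, c', h1, h2, h3, h4, h5, h6⟩ := two_darts G M (hg i j hij) (x := ⟨x, hx⟩) hxA
    have h7 := hω i j c c' hij (by rw [h1, h2]) h3 h4 h5 (by rw [h1]; exact hn)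
    have h8 : c' = (c.1, c.2.1, !c.2.2) := by
      obtain ⟨y, s, d⟩ := c
      obtain ⟨y', s', d'⟩ := c'
      simp only at h1 h2 h7
      subst h1
      subst h2
      subst h7
      congr 2
      by_contra hd
      apply h3
      have : d' = d := by
        revert hd
        cases d <;> cases d' <;> simp
      rw [this]
    rw [h8] at h5
    have h9 := straight_nhds G M c (A := A i j) (by rw [h1]; exact hxA) h4 h5
    rw [h1] at h9
    refine ht _ _ (G.L.dir c).2 ?_ h9
    have := pc_sub_edge G M (Sum.inr c)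
    have h10 : c.1.1 ∈ D.edge (G.L.dir c).1.1 (G.L.dir c).1.2 := by
      have h11 := gamma_cp G (Sum.inr c)
      have h12 : c.1.1 = G.γ (G.L.dir c) (G.cp (Sum.inr c)) := h11.symm
      rw [h12, ← (G.param (G.L.dir c)).2.2.2.2]
      exact mem_image_of_mem _ ⟨cp_nonneg G _, (cp_lt_one G _).le⟩
    rw [h1] at h10
    exact h10
  have hcard : (strt ω).ncard + {x : D.crossings | ω x ≠ none}.ncard = D.cr := by
    rw [hcr, ← Set.ncard_add_ncard_compl (strt ω)]
    rfl
  have h1 : (D.turns A).ncard ≤ {x : D.crossings | ω x ≠ none}.ncard := by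
    calc (D.turns A).ncard ≤ (Subtype.val '' {x : D.crossings | ω x ≠ none}).ncard :=
          Set.ncard_le_ncard hturn (Set.toFinite _)
      _ ≤ _ := Set.ncard_image_le (Set.toFinite _)
  have hone : ∃ D' : Drawing S n, D'.cr + (D.turns A).ncard ≤ D.cr := ⟨D', by omega⟩
  have htwo : D.turns A = ∅ → ∀ i j, i ≠ j → A i j = D.edge i j := by
    intro he i j hij
    apply no_turn G M (hg i j hij)
    · intro k hk
      obtain ⟨v, h5, h6⟩ := vertex_dart G M (hg i j hij) hk
      have h7 := hS.vertex hij (v := v) h6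
      rw [h5] at h7
      exact h7
    · intro c c' h5 h6 h7 h8
      by_contra hs
      have hxA : c.1.1 ∈ A i j := by
        have h2 := closure_minimal h7 (isCompact_arc (hA.arc i j hij)).isClosed
        exact h2 (base_mem_closure G M (Sum.inr c))
      have : c.1.1 ∈ D.turns A :=
        ⟨c.1.2, i, j, hij, hxA, fun k l hkl hx => not_straight G M (hg i j hij) h5 hxA h7 h8 hs hkl hx⟩
      rw [he] at this
      exact this
  refine ⟨hone, htwo, ?_⟩
  intro hopt
  apply htwo
  obtain ⟨D'', h2⟩ := hone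
  have h3 := hopt D''
  have h4 : (D.turns A).ncard = 0 := by omega
  have hf : (D.turns A).Finite := (crossings_finite D).subset (fun x hx => hx.1)
  exact (Set.ncard_eq_zero hf).1 h4

end Pool.HexDraw
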