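import Pool.Agent.Lib.MP_8613e3_im.Defs

/-!
# NoB (70): an open piece contains no crossing and no vertex; different pieces are disjoint

`pc_not_crossing`: let `y = γ v t`, `v = ddir h`, `cp h < t < 1 - cp (flip h)`, be the crossing `x`. One of the strands of
`x` lies on the edge `v`, so `v = dir (x,s,d)` for some `s, d` (use `h01_three` with `G.st`/`dir_st`, `p08_dir_mem`, or see
how P08 gets `walk_cross`), and `t = cp (inr (x,s,d))` by injectivity (`gamma_cp`). Now `M.gap h x s d`: (1)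
`inr (x,s,d) = h`: `t = cp h`; (2) `inr (x,s,!d) = flip h`: `t = 1 - cp (flip h)` by `cp_opp`; (3) `pos (x,s,d) < dpos h`:
if `h = inl`, `dpos h = 0`; if `h = inr e` then `L.sep` (both darts on `v`) gives `cp (x,s,d) < cp h`
(`cp` lies strictly between `1 - pos (opposite)` and `pos`); (4) symmetric.
`pc_ne_pt`: `t ≠ 0, 1`, `D.avoid` and injectivity of `γ v`.
-/

set_option autoImplicit false

namespace Pool.HexDraw

open Set Topology

variable {S : Type} [TopologicalSpace S] {n : ℕ} {D : Drawing S n}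

private theorem nb_lt (G : Geo D) (k : Dart n D.crossings) (x : D.crossings) (s d : Bool)
    (hdir : G.L.dir (x, s, d) = G.L.ddir k) (hlt : G.L.pos (x, s, d) < G.L.dpos k) :
    G.cp (Sum.inr (x, s, d)) < G.cp k := by
  cases k with
  | inl v =>
    have h1 := G.L.pos_pos (x, s, d)
    have h2 : G.L.dpos (Sum.inl v : Dart n D.crossings) = 0 := rfl
    rw [h2] at hlt
    linarith
  | inr e =>
    obtain ⟨x', s', d'⟩ := e
    have hlt' : G.L.pos (x, s, d) < G.L.pos (x', s', d') := hlt
    have e7 : G.L.dir (x, s, d) = G.L.dir (x', s', d') := hdir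
    have hne : (x, s) ≠ (x', s') := by
      intro e9
      rw [Prod.mk.injEq] at e9
      obtain ⟨rfl, rfl⟩ := e9
      by_cases hde : d = d'
      · subst hde
        exact lt_irrefl _ hlt'
      · have hde2 : d' = !d := by cases d <;> cases d' <;> simp_all
        rw [hde2, G.L.dir_opp x s d] at e7
        exact VD.rev_ne _ e7.symm
    have hb := G.L.box x s d
    have h1 : G.cp (Sum.inr (x, s, d)) < G.L.pos (x, s, d) := (G.ctr x s d).choose_spec.1.2
    have h2 : 1 - G.L.pos (x', s', !d') < G.cp (Sum.inr (x', s', d')) := (G.ctr x' s' d').choose_spec.1.1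
    rcases G.L.sep x s d x' s' d' e7 hne with h4 | h4
    · linarith
    · linarith

theorem pc_not_crossing (G : Geo D) (M : LineNet G.L) {h : Dart n D.crossings} {y : S} (hy : y ∈ G.pc M h) :
    y ∉ D.crossings := by
  intro hyc
  have hye := pc_sub_edge G M h hy
  obtain ⟨t, ⟨ht1, ht2⟩, hty⟩ := hy
  set v := G.L.ddir h with hv
  let x : D.crossings := ⟨y, hyc⟩
  have hxb : x.1 ∈ G.B.toBoxes.box x := by
    refine ⟨(0, 0), ?_, G.B.centre x⟩
    constructor <;> constructor <;> norm_num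
  have hs : ∃ s, v = G.B.st x s ∨ v = (G.B.st x s).rev := by
    by_contra hcon
    push Not at hcon
    exact (disjoint_left.1 (G.B.edge_box x v hcon)) hxb hye
  obtain ⟨s, hs⟩ := hs
  have hd : ∃ d, G.L.dir (x, s, d) = v := by
    have e0 : G.L.dir (x, s, false) = (G.L.dir (x, s, true)).rev := G.L.dir_opp x s true
    rcases G.dir_st x s true with e1 | e1 <;> rcases hs with e2 | e2
    · exact ⟨true, by rw [e1, e2]⟩
    · exact ⟨false, by rw [e0, e1, e2]⟩
    · exact ⟨false, by rw [e0, e1, e2]; rfl⟩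
    · exact ⟨true, by rw [e1, e2]⟩
  obtain ⟨d, hd⟩ := hd
  have a1 := cp_nonneg G h
  have a2 := cp_nonneg G (M.flip h)
  have a3 := cp_nonneg G (Sum.inr (x, s, d))
  have a4 := cp_lt_one G (Sum.inr (x, s, d))
  have hb : G.γ (G.L.dir (x, s, d)) (G.cp (Sum.inr (x, s, d))) = y := gamma_cp G (Sum.inr (x, s, d))
  rw [hd] at hb
  have htc : t = G.cp (Sum.inr (x, s, d)) :=
    (G.param v).2.1 ⟨by linarith, by linarith⟩ ⟨a3, a4.le⟩ (hty.trans hb.symm)
  have hopp := cp_opp G x s d
  rcases M.gap h x s d hd with e | e | e | e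
  · rw [e] at htc
    linarith
  · rw [e] at hopp
    linarith
  · have h5 := nb_lt G h x s d hd e
    linarith
  · have h6 : G.L.dir (x, s, !d) = G.L.ddir (M.flip h) := by
      rw [M.ddir_flip, G.L.dir_opp x s d, hd]
    have h5 := nb_lt G (M.flip h) x s (!d) h6 (by linarith)
    linarith

theorem pc_ne_pt (G : Geo D) (M : LineNet G.L) {h : Dart n D.crossings} {y : S} (hy : y ∈ G.pc M h) (i : Fin n) :
    y ≠ D.pt i := by
  intro hyi
  have hye := pc_sub_edge G M h hy
  obtain ⟨t, ⟨ht1, ht2⟩, hty⟩ := hy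
  have a1 := cp_nonneg G h
  have a2 := cp_nonneg G (M.flip h)
  have hp := G.param (G.L.ddir h)
  have htm : t ∈ Icc (0 : ℝ) 1 := ⟨by linarith, by linarith⟩
  by_cases h1 : i = (G.L.ddir h).1.1
  · have h2 : t = 0 := hp.2.1 htm ⟨le_refl _, zero_le_one⟩ (by rw [hty, hp.2.2.1, hyi, h1])
    linarith
  by_cases h3 : i = (G.L.ddir h).1.2
  · have h2 : t = 1 := hp.2.1 htm ⟨zero_le_one, le_refl _⟩ (by rw [hty, hp.2.2.2.1, hyi, h3])
    linarith
  rw [hyi] at hye
  exact D.avoid _ _ i (G.L.ddir h).2 h1 h3 hye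

end Pool.HexDraw
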