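import Pool.Agent.Lib.MP_8613e3_im.Defs

/-!
# Str (60): two opposite pieces and the crossing form a neighbourhood in the edge

`v = dir c`, `x = c.1.1 = γ v (cp (inr c))` (`gamma_cp`). With `o = inr (c.1, c.2.1, !c.2.2)`, `ddir o = v.rev`, `cp o = 1 - cp (inr c)` (`cp_opp`):
`pc (inr c) = γ v '' Ioo (cp (inr c)) b` and `pc o = γ v '' Ioo a (cp (inr c))` with `a = cp (flip o)` (reflect with `G.rev`),
`b = 1 - cp (flip (inr c))`, `a < cp (inr c) < b` (`cp_lt`). The set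
`γ v '' Icc 0 a ∪ γ v '' Icc b 1` is compact, hence closed, and does not contain `x`; outside it all points of the edge are in `A`.
-/

set_option autoImplicit false

namespace Pool.HexDraw

open Set Topology

variable {S : Type} [TopologicalSpace S] {n : ℕ} {D : Drawing S n}

theorem straight_nhds [T2Space S] (G : Geo D) (M : LineNet G.L) (c : CD D.crossings) {A : Set S} (hx : c.1.1 ∈ A)
    (h1 : G.pc M (Sum.inr c) ⊆ A) (h2 : G.pc M (Sum.inr (c.1, c.2.1, !c.2.2)) ⊆ A) :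
    ∀ᶠ y in 𝓝[D.edge (G.L.dir c).1.1 (G.L.dir c).1.2] c.1.1, y ∈ A := by
  obtain ⟨x, s, d⟩ := c
  obtain ⟨v, hv⟩ : ∃ v, v = G.L.dir (x, s, d) := ⟨_, rfl⟩
  obtain ⟨t0, ht0⟩ : ∃ t0, t0 = G.cp (Sum.inr (x, s, d)) := ⟨_, rfl⟩
  obtain ⟨b, hb⟩ : ∃ b, b = 1 - G.cp (M.flip (Sum.inr (x, s, d))) := ⟨_, rfl⟩
  obtain ⟨a, ha⟩ : ∃ a, a = G.cp (M.flip (Sum.inr (x, s, !d))) := ⟨_, rfl⟩
  have hxt : G.γ v t0 = x.1 := by
    rw [hv, ht0]
    exact gamma_cp G (Sum.inr (x, s, d))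
  have hcpo := cp_opp G x s d
  have htb : t0 < b := by
    rw [ht0, hb]
    exact cp_lt G M _
  have hat : a < t0 := by
    have h := cp_lt G M (Sum.inr (x, s, !d))
    rw [hcpo, ← ha, ← ht0] at h
    linarith
  have ht01 : t0 < 1 := by
    rw [ht0]
    exact cp_lt_one G _
  have ht00 : 0 ≤ t0 := by
    rw [ht0]
    exact cp_nonneg G _
  have hP := G.param v
  have hcont := hP.1
  have hinj := hP.2.1
  have himg := hP.2.2.2.2
  have hsub : Icc 0 a ∪ Icc b 1 ⊆ Icc (0 : ℝ) 1 := by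
    rintro t (h | h)
    · exact ⟨h.1, by linarith [h.2]⟩
    · exact ⟨by linarith [h.1], h.2⟩
  have hK : IsClosed (G.γ v '' (Icc 0 a ∪ Icc b 1)) :=
    ((isCompact_Icc.union isCompact_Icc).image_of_continuousOn (hcont.mono hsub)).isClosed
  have hxK : x.1 ∈ (G.γ v '' (Icc 0 a ∪ Icc b 1))ᶜ := by
    rintro ⟨t, ht, hte⟩
    have h := hinj (hsub ht) ⟨ht00, ht01.le⟩ (hte.trans hxt.symm)
    rcases ht with ht | ht
    · linarith [ht.2]
    · linarith [ht.1]
  rw [eventually_nhdsWithin_iff]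
  filter_upwards [hK.isOpen_compl.mem_nhds hxK] with y hy hyE
  change y ∈ D.edge (G.L.dir (x, s, d)).1.1 (G.L.dir (x, s, d)).1.2 at hyE
  rw [← hv, ← himg] at hyE
  obtain ⟨t, ht, rfl⟩ := hyE
  have hta : a < t := by
    by_contra hc
    push Not at hc
    exact hy ⟨t, Or.inl ⟨ht.1, hc⟩, rfl⟩
  have htb' : t < b := by
    by_contra hc
    push Not at hc
    exact hy ⟨t, Or.inr ⟨hc, ht.2⟩, rfl⟩
  rcases lt_trichotomy t t0 with h | h | h
  · apply h2
    refine ⟨1 - t, ⟨?_, ?_⟩, ?_⟩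
    · change G.cp (Sum.inr (x, s, !d)) < 1 - t
      rw [hcpo, ← ht0]
      linarith
    · change 1 - t < 1 - G.cp (M.flip (Sum.inr (x, s, !d)))
      rw [← ha]
      linarith
    · change G.γ (G.L.dir (x, s, !d)) (1 - t) = G.γ v t
      rw [G.L.dir_opp, G.rev, ← hv]
      congr 1
      ring
  · rw [h, hxt]
    exact hx
  · apply h1
    refine ⟨t, ⟨?_, ?_⟩, ?_⟩
    · rw [← ht0]
      exact h
    · rw [← hb]
      exact htb'
    · change G.γ (G.L.dir (x, s, d)) t = G.γ v t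
      rw [← hv]

end Pool.HexDraw
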