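import Pool.Agent.Lib.MP_8613e3_im.Side
import Pool.Agent.Lib.MP_8613e3_im.All

/-!
# Two (120): an arc of the system which passes through a crossing contains exactly two of the four pieces there

`x = α u`, `0 < u < 1` (the ends of `A` are vertices, a crossing is no vertex). `side` for `α` at `u` gives `h`, and `side` for `t ↦ α (1 - t)`
at `1 - u` gives `h'`: `α '' Ioo u (u+ε) ⊆ pc h`, `α '' Ioo (u-ε') u ⊆ pc h'`, both begin at `x`. `h = inr c`, `h' = inr c'` with `c.1 = c'.1 = x`.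
`c ≠ c'`: otherwise, `γ v` (`v = ddir h`) being a homeomorphism onto the edge, `γ v ⁻¹ (α '' Ioo u (u+ε))` and
`γ v ⁻¹ (α '' Ioo (u-ε') u)` are two disjoint intervals in `(cp h, 1)` which both have `cp h` in the closure: impossible. (Or: the continuous
injective function `s ↦ γ v ⁻¹ (α s)` on `(u-ε', u+ε)` is strictly monotone, but its value at `u` is its minimum.)
A third dart `c''` at `x` with `pc (inr c'') ⊆ A`: `x` is in the closure of `pc (inr c'')`, so (compactness: `α ⁻¹` is continuous on `A`) some point of it is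
`α s` with `s ∈ (u-ε', u+ε)`, `s ≠ u`, so it lies in `pc h` or in `pc h'`, and `pc_disj` gives `inr c'' = h` or `flip h` (or the same with `h'`); but
`base (flip h) ≠ base h` (`γ v` injective, `cp_lt`).
-/

set_option autoImplicit false

namespace Pool.HexDraw

open Set Topology

variable {S : Type} [TopologicalSpace S] {n : ℕ} {D : Drawing S n}

private theorem two_cr_ne {y : S} (hy : y ∈ D.crossings) (m : Fin n) : y ≠ D.pt m := by
  rintro rfl
  obtain ⟨a, b, k, l, hab, hkl, ⟨d1, d2, d3, d4⟩, h1, h2⟩ := hy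
  have e1 : m = a ∨ m = b := by
    by_contra hc
    rw [not_or] at hc
    exact D.avoid a b m hab hc.1 hc.2 h1
  have e2 : m = k ∨ m = l := by
    by_contra hc
    rw [not_or] at hc
    exact D.avoid k l m hkl hc.1 hc.2 h2
  rcases e1 with e1 | e1 <;> rcases e2 with e2 | e2
  · exact d1 (e1.symm.trans e2)
  · exact d2 (e1.symm.trans e2)
  · exact d3 (e1.symm.trans e2)
  · exact d4 (e1.symm.trans e2)

private theorem two_inr {x : D.crossings} {h : Dart n D.crossings} (hb : D.base h = x.1) :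
    ∃ c : CD D.crossings, h = Sum.inr c ∧ c.1 = x := by
  cases h with
  | inl v => exact absurd hb.symm (two_cr_ne x.2 v.1.1)
  | inr c => exact ⟨c, rfl, Subtype.ext hb⟩

private theorem two_flip (G : Geo D) (M : LineNet G.L) (h : Dart n D.crossings) :
    D.base (M.flip h) ≠ D.base h := by
  intro e
  have h1 := gamma_cp G (M.flip h)
  have h2 := gamma_cp G h
  rw [M.ddir_flip, G.rev, e, ← h2] at h1
  have h3 := cp_lt G M h
  have a1 := cp_nonneg G h
  have a2 := cp_nonneg G (M.flip h)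
  have h4 := (G.param (G.L.ddir h)).2.1 ⟨by linarith, by linarith⟩ ⟨a1, by linarith⟩ h1
  linarith

private theorem two_img (G : Geo D) (M : LineNet G.L) {h : Dart n D.crossings} {y : S}
    (hy : y ∈ G.pc M h) : y ∈ G.γ (G.L.ddir h) '' Icc 0 1 := by
  obtain ⟨t, ⟨h1, h2⟩, e⟩ := hy
  have a1 := cp_nonneg G h
  have a2 := cp_nonneg G (M.flip h)
  exact ⟨t, ⟨by linarith, by linarith⟩, e⟩

private theorem two_btw [T2Space S] {α γ : ℝ → S} (hγ : ContinuousOn γ (Icc 0 1))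
    (hi : InjOn γ (Icc 0 1)) {a b : ℝ} (hα : ContinuousOn α (Icc a b))
    (hsub : α '' Icc a b ⊆ γ '' Icc 0 1) {t0 t1 t2 : ℝ} (h0 : 0 ≤ t0) (h01 : t0 ≤ t1)
    (h12 : t1 ≤ t2) (h2 : t2 ≤ 1) (m0 : γ t0 ∈ α '' Icc a b) (m2 : γ t2 ∈ α '' Icc a b) :
    γ t1 ∈ α '' Icc a b := by
  have hC : IsPreconnected (α '' Icc a b) := isPreconnected_Icc.image α hα
  have c1 : IsClosed (γ '' Icc 0 t1) :=
    (isCompact_Icc.image_of_continuousOn (hγ.mono (Icc_subset_Icc_right (by linarith)))).isClosed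
  have c2 : IsClosed (γ '' Icc t1 1) :=
    (isCompact_Icc.image_of_continuousOn (hγ.mono (Icc_subset_Icc_left (by linarith)))).isClosed
  have hcov : α '' Icc a b ⊆ γ '' Icc 0 t1 ∪ γ '' Icc t1 1 := by
    rw [← image_union, Icc_union_Icc_eq_Icc (by linarith) (by linarith)]
    exact hsub
  obtain ⟨y, hy, ⟨s, hs, e1⟩, ⟨t, ht, e2⟩⟩ := isPreconnected_closed_iff.1 hC _ _ c1 c2 hcov
    ⟨_, m0, mem_image_of_mem _ ⟨h0, h01⟩⟩ ⟨_, m2, mem_image_of_mem _ ⟨h12, h2⟩⟩
  have e3 := hi ⟨by linarith [ht.1], ht.2⟩ ⟨hs.1, by linarith [hs.2]⟩ (e2.trans e1.symm)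
  have e4 : s = t1 := le_antisymm hs.2 (by linarith [ht.1])
  rw [← e4, e1]
  exact hy

theorem two_darts [T2Space S] (G : Geo D) (M : LineNet G.L) {i j : Fin n} {A : Set S} (hA : Good D i j A)
    {x : D.crossings} (hx : x.1 ∈ A) : ∃ c c' : CD D.crossings, c.1 = x ∧ c'.1 = x ∧ c ≠ c' ∧
      G.pc M (Sum.inr c) ⊆ A ∧ G.pc M (Sum.inr c') ⊆ A ∧
      ∀ c'' : CD D.crossings, c''.1 = x → G.pc M (Sum.inr c'') ⊆ A → c'' = c ∨ c'' = c' := by
  obtain ⟨α, hα⟩ := hA.arc
  have hα' := hα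
  obtain ⟨hc, hinj, h0, h1, himg⟩ := hα'
  have hx' := hx
  rw [← himg] at hx'
  obtain ⟨u, hu, hux⟩ := hx'
  have hu0 : u ≠ 0 := by
    intro e
    exact two_cr_ne x.2 i (by rw [← hux, e, h0])
  have hu1 : u ≠ 1 := by
    intro e
    exact two_cr_ne x.2 j (by rw [← hux, e, h1])
  have hu0' : 0 < u := lt_of_le_of_ne hu.1 (Ne.symm hu0)
  have hu1' : u < 1 := lt_of_le_of_ne hu.2 hu1
  obtain ⟨h, hb, ε, hε, hε1, hsub⟩ := side G M hα hA.sub hu0'.le hu1'
    (Or.inr (by rw [hux]; exact x.2))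
  have hu2 : α (1 - (1 - u)) = x.1 := by
    rw [sub_sub_cancel]
    exact hux
  obtain ⟨h', hb', ε', hε', hε1', hsub'⟩ := side G M hα.symm hA.sub (u := 1 - u) (by linarith)
    (by linarith) (Or.inr (by rw [hu2]; exact x.2))
  rw [hux] at hb
  rw [hu2] at hb'
  have hright : ∀ s ∈ Ioo u (u + ε), α s ∈ G.pc M h := fun s hs => hsub ⟨s, hs, rfl⟩
  have hleft : ∀ s ∈ Ioo (u - ε') u, α s ∈ G.pc M h' := by
    intro s hs
    have e : (fun t => α (1 - t)) (1 - s) = α s := by simp only [sub_sub_cancel]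
    rw [← e]
    exact hsub' ⟨1 - s, ⟨by linarith [hs.2], by linarith [hs.1]⟩, rfl⟩
  have hpA : G.pc M h ⊆ A := all_or_nothing G M hA ⟨α (u + ε / 2),
    hright _ ⟨by linarith, by linarith⟩, by
      rw [← himg]
      exact ⟨u + ε / 2, ⟨by linarith, by linarith⟩, rfl⟩⟩
  have hpA' : G.pc M h' ⊆ A := all_or_nothing G M hA ⟨α (u - ε' / 2),
    hleft _ ⟨by linarith, by linarith⟩, by
      rw [← himg]
      exact ⟨u - ε' / 2, ⟨by linarith, by linarith⟩, rfl⟩⟩
  have hne : h ≠ h' := by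
    intro e
    rw [← e] at hleft
    obtain ⟨t1, ht1, e1⟩ := hright (u + ε / 2) ⟨by linarith, by linarith⟩
    obtain ⟨t2, ht2, e2⟩ := hleft (u - ε' / 2) ⟨by linarith, by linarith⟩
    obtain ⟨gc, gi, -, -, -⟩ := G.param (G.L.ddir h)
    have hcp := gamma_cp G h
    rw [hb, ← hux] at hcp
    have a1 := cp_nonneg G h
    have a2 := cp_nonneg G (M.flip h)
    have a3 := cp_lt_one G h
    have himu : α u ∈ G.γ (G.L.ddir h) '' Icc 0 1 := ⟨G.cp h, ⟨a1, a3.le⟩, hcp⟩
    rcases lt_trichotomy t1 t2 with hlt | heq | hgt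
    · have hs2 : α '' Icc (u - ε' / 2) u ⊆ G.γ (G.L.ddir h) '' Icc 0 1 := by
        rintro y ⟨s, hs, rfl⟩
        rcases eq_or_lt_of_le hs.2 with hs3 | hs3
        · rw [hs3]
          exact himu
        · exact two_img G M (hleft s ⟨by linarith [hs.1], hs3⟩)
      obtain ⟨s, hs, es⟩ := two_btw gc gi (hc.mono (Icc_subset_Icc (by linarith) hu.2)) hs2
        (t0 := G.cp h) a1 ht1.1.le hlt.le (by linarith [ht2.2])
        ⟨u, ⟨by linarith, le_refl _⟩, hcp.symm⟩ ⟨u - ε' / 2, ⟨le_refl _, by linarith⟩, e2.symm⟩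
      have e3 := hinj ⟨by linarith [hs.1], by linarith [hs.2]⟩ ⟨by linarith, by linarith⟩
        (es.trans e1)
      linarith [hs.2]
    · rw [heq, e2] at e1
      have e3 := hinj ⟨by linarith, by linarith⟩ ⟨by linarith, by linarith⟩ e1
      linarith
    · have hs2 : α '' Icc u (u + ε / 2) ⊆ G.γ (G.L.ddir h) '' Icc 0 1 := by
        rintro y ⟨s, hs, rfl⟩
        rcases eq_or_lt_of_le hs.1 with hs3 | hs3
        · rw [← hs3]
          exact himu
        · exact two_img G M (hright s ⟨hs3, by linarith [hs.2]⟩)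
      obtain ⟨s, hs, es⟩ := two_btw gc gi (hc.mono (Icc_subset_Icc hu.1 (by linarith))) hs2
        (t0 := G.cp h) a1 ht2.1.le hgt.le (by linarith [ht1.2])
        ⟨u, ⟨le_refl _, by linarith⟩, hcp.symm⟩ ⟨u + ε / 2, ⟨by linarith, le_refl _⟩, e1.symm⟩
      have e3 := hinj ⟨by linarith [hs.1], by linarith [hs.2]⟩ ⟨by linarith, by linarith⟩
        (es.trans e2)
      linarith [hs.1]
  obtain ⟨c, rfl, hcx⟩ := two_inr hb
  obtain ⟨c', rfl, hcx'⟩ := two_inr hb'
  refine ⟨c, c', hcx, hcx', fun e => hne (congrArg Sum.inr e), hpA, hpA', ?_⟩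
  intro c'' hc'' hpc
  have hbx : D.base (Sum.inr c'') = x.1 := congrArg Subtype.val hc''
  have hcl := base_mem_closure G M (Sum.inr c'')
  rw [hbx] at hcl
  have hK : IsClosed (α '' (Icc 0 1 \ Ioo (u - ε') (u + ε))) :=
    ((isCompact_Icc.diff isOpen_Ioo).image_of_continuousOn (hc.mono sdiff_subset)).isClosed
  have hxK : x.1 ∈ (α '' (Icc 0 1 \ Ioo (u - ε') (u + ε)))ᶜ := by
    rintro ⟨s, ⟨hs, hs'⟩, e⟩
    have e1 := hinj hs hu (e.trans hux.symm)
    refine hs' ?_
    rw [e1]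
    exact ⟨by linarith, by linarith⟩
  obtain ⟨y, hyK, hyp⟩ := mem_closure_iff.1 hcl _ hK.isOpen_compl hxK
  have hyA := hpc hyp
  rw [← himg] at hyA
  obtain ⟨s, hs, rfl⟩ := hyA
  have hs' : s ∈ Ioo (u - ε') (u + ε) := by
    by_contra hcon
    exact hyK ⟨s, ⟨hs, hcon⟩, rfl⟩
  rcases lt_trichotomy s u with hlt | heq | hgt
  · right
    rcases pc_disj G M (hleft s ⟨hs'.1, hlt⟩) hyp with e | e
    · exact Sum.inr_injective e
    · exact absurd (by rw [← e, hbx, hb']) (two_flip G M (Sum.inr c'))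
  · refine absurd ?_ (pc_not_crossing G M hyp)
    rw [heq, hux]
    exact x.2
  · left
    rcases pc_disj G M (hright s ⟨hgt, hs'.2⟩) hyp with e | e
    · exact Sum.inr_injective e
    · exact absurd (by rw [← e, hbx, hb]) (two_flip G M (Sum.inr c))

end Pool.HexDraw
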