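import Pool.Agent.Lib.MP_8613e3_im.Start
import Pool.Agent.Lib.MP_8613e3_im.Two
import Pool.Agent.Lib.MP_8613e3_im.Str
import Pool.Agent.Lib.MP_8613e3_im.ArcEq

/-!
# Rig (120): an arc of the system without turns is an edge

`vertex_dart` with `k = i`: a dart `v = (i,k)` with `pc (inl v) ⊆ A`. Every dart `h` with `ddir h = v` has `pc h ⊆ A`: otherwise take
one with `cp h` minimal; `h ≠ inl v`, so `h = inr (x,s,d)`; the dart `g = flip (inr (x,s,!d))` has `ddir g = v` and
`cp g < 1 - cp (flip g) = cp h` (`cp_lt`, `cp_opp`), so `pc (inr (x,s,!d)) = pc g ⊆ A`, hence `x ∈ A` (`base_mem_closure`, `A` is closed);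
by `two_darts` there are exactly two darts at `x` in `A`, by `hst` they are on the same strand, so they are `(x,s,!d)` and `(x,s,d)`. So
`D.edge i k ⊆ A` by `skel_cover` (a piece which meets the edge `v` is a piece of a dart of the edge `v`, by `pc_not_crossing` and `pc_ne_pt`).
By `hv` `k = j` (`k ≠ i`). Two arcs with the same ends, one contained in the other, are equal: `arc_eq` (row ArcEq).
-/

set_option autoImplicit false

namespace Pool.HexDraw

open Set Topology

variable {S : Type} [TopologicalSpace S] {n : ℕ} {D : Drawing S n}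

private theorem rig_base [T2Space S] (G : Geo D) (M : LineNet G.L) {i j : Fin n} {A : Set S} (hA : Good D i j A)
    {h : Dart n D.crossings} (hh : G.pc M h ⊆ A) : D.base h ∈ A := by
  have hc : IsCompact A := by
    obtain ⟨α, h1, -, -, -, h2⟩ := hA.arc
    rw [← h2]
    exact isCompact_Icc.image_of_continuousOn h1
  exact closure_minimal hh hc.isClosed (base_mem_closure G M h)

private theorem rig_opp {X : Type} {c c' : CD X} (h1 : c'.1 = c.1) (h2 : c'.2.1 = c.2.1) (h3 : c ≠ c') :
    c' = (c.1, c.2.1, !c.2.2) := by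
  obtain ⟨x, s, d⟩ := c
  obtain ⟨x', s', d'⟩ := c'
  simp only at h1 h2
  subst h1
  subst h2
  cases d <;> cases d' <;> simp_all

private theorem rig_step [T2Space S] (G : Geo D) (M : LineNet G.L) {i j : Fin n} {A : Set S} (hA : Good D i j A)
    (hst : ∀ c c' : CD D.crossings, c'.1 = c.1 → c ≠ c' → G.pc M (Sum.inr c) ⊆ A → G.pc M (Sum.inr c') ⊆ A →
      c'.2.1 = c.2.1) (x : D.crossings) (s d : Bool) (ho : G.pc M (Sum.inr (x, s, !d)) ⊆ A) :
    G.pc M (Sum.inr (x, s, d)) ⊆ A := by
  have hx : x.1 ∈ A := rig_base G M hA ho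
  obtain ⟨c, c', h1, h2, h3, h4, h5, h6⟩ := two_darts G M hA hx
  have h7 := hst c c' (by rw [h1, h2]) h3 h4 h5
  have h8 := rig_opp (by rw [h1, h2]) h7 h3
  rcases h6 (x, s, !d) rfl ho with h9 | h9
  · have e : c' = (x, s, d) := by
      rw [h8, ← h9]
      simp
    rw [← e]
    exact h5
  · have e : c = (x, s, d) := by
      have h10 : (x, s, !d) = (c.1, c.2.1, !c.2.2) := h9.trans h8
      obtain ⟨y, t, e⟩ := c
      simp only [Prod.mk.injEq] at h10
      obtain ⟨a1, a2, a3⟩ := h10
      have a4 : d = e := by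
        revert a3
        cases d <;> cases e <;> simp
      rw [a1, a2, a4]
    rw [← e]
    exact h4

private theorem rig_darts [T2Space S] (G : Geo D) (M : LineNet G.L) {i j : Fin n} {A : Set S} (hA : Good D i j A)
    (hst : ∀ c c' : CD D.crossings, c'.1 = c.1 → c ≠ c' → G.pc M (Sum.inr c) ⊆ A → G.pc M (Sum.inr c') ⊆ A →
      c'.2.1 = c.2.1) {v : VD n} (hv : G.pc M (Sum.inl v) ⊆ A) (h : Dart n D.crossings)
    (hh : G.L.ddir h = v) : G.pc M h ⊆ A := by
  have : Finite D.crossings := (crossings_finite D).to_subtype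
  by_contra hcon
  obtain ⟨g, ⟨hg1, hg2⟩, hg3⟩ := Set.exists_min_image
    {h : Dart n D.crossings | G.L.ddir h = v ∧ ¬ G.pc M h ⊆ A} G.cp (Set.toFinite _) ⟨h, hh, hcon⟩
  cases g with
  | inl w =>
    have e : w = v := hg1
    rw [e] at hg2
    exact hg2 hv
  | inr c =>
    obtain ⟨x, s, d⟩ := c
    apply hg2
    refine rig_step G M hA hst x s d ?_
    by_contra hno
    have h1 : G.L.ddir (Sum.inr (x, s, !d)) = v.rev := by
      have h2 : G.L.ddir (Sum.inr (x, s, !d)) = (G.L.ddir (Sum.inr (x, s, d))).rev := G.L.dir_opp x s d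
      rw [h2, hg1]
    have h3 : G.L.ddir (M.flip (Sum.inr (x, s, !d))) = v := by
      rw [M.ddir_flip, h1]
      rfl
    have h4 : ¬ G.pc M (M.flip (Sum.inr (x, s, !d))) ⊆ A := by
      rw [pc_flip]
      exact hno
    have h5 := hg3 (M.flip (Sum.inr (x, s, !d))) ⟨h3, h4⟩
    have h6 := cp_lt G M (M.flip (Sum.inr (x, s, !d)))
    rw [M.flip_flip, cp_opp] at h6
    linarith

/-- the dart of a crossing which lies on the edge `v` -/
private theorem rig_on (G : Geo D) {v : VD n} {x : D.crossings} (hx : x.1 ∈ D.edge v.1.1 v.1.2) :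
    ∃ s d, G.L.dir (x, s, d) = v := by
  have hxb : x.1 ∈ G.B.toBoxes.box x := by
    refine ⟨(0, 0), ?_, G.B.centre x⟩
    constructor <;> constructor <;> norm_num
  have hs : ∃ s, v = G.B.st x s ∨ v = (G.B.st x s).rev := by
    by_contra hcon
    push Not at hcon
    exact (disjoint_left.1 (G.B.edge_box x v hcon)) hxb hx
  obtain ⟨s, hs⟩ := hs
  refine ⟨s, ?_⟩
  have e0 : G.L.dir (x, s, false) = (G.L.dir (x, s, true)).rev := G.L.dir_opp x s true
  rcases G.dir_st x s true with e1 | e1 <;> rcases hs with e2 | e2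
  · exact ⟨true, by rw [e1, e2]⟩
  · exact ⟨false, by rw [e0, e1, e2]⟩
  · exact ⟨false, by rw [e0, e1, e2]; rfl⟩
  · exact ⟨true, by rw [e1, e2]⟩

/-- two edges with a common point which is neither a vertex nor a crossing are equal -/
private theorem rig_same (D : Drawing S n) {v w : VD n} {y : S} (h1 : y ∈ D.edge v.1.1 v.1.2)
    (h2 : y ∈ D.edge w.1.1 w.1.2) (h3 : y ∉ D.crossings) (h4 : ∀ k, y ≠ D.pt k) : w = v ∨ w = v.rev := by
  obtain ⟨⟨a, b⟩, hab⟩ := v
  obtain ⟨⟨c, d⟩, hcd⟩ := w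
  simp only at h1 h2 hab hcd
  have key : ∀ a b d : Fin n, a ≠ b → a ≠ d → y ∈ D.edge a b → y ∈ D.edge a d → b = d := by
    intro a b d hab had g1 g2
    by_contra hbd
    have h5 : y ∈ D.edge a b ∩ D.edge a d := ⟨g1, g2⟩
    rw [D.adjacent a b d hab had hbd] at h5
    exact h4 a h5
  have h1' : y ∈ D.edge b a := by rw [D.symm]; exact h1
  have h2' : y ∈ D.edge d c := by rw [D.symm]; exact h2
  by_cases e1 : a = c
  · subst e1
    have := key a b d hab hcd h1 h2
    subst this
    exact Or.inl rfl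
  by_cases e2 : a = d
  · subst e2
    have := key a b c hab hcd.symm h1 h2'
    subst this
    exact Or.inr rfl
  by_cases e3 : b = c
  · subst e3
    have := key b a d hab.symm hcd h1' h2
    exact absurd this e2
  by_cases e4 : b = d
  · subst e4
    have := key b a c hab.symm hcd.symm h1' h2'
    exact absurd this e1
  exact absurd ⟨a, b, c, d, hab, hcd, ⟨e1, e2, e3, e4⟩, h1, h2⟩ h3

theorem no_turn [T2Space S] (G : Geo D) (M : LineNet G.L) {i j : Fin n} {A : Set S} (hA : Good D i j A)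
    (hv : ∀ k, D.pt k ∈ A → k = i ∨ k = j)
    (hst : ∀ c c' : CD D.crossings, c'.1 = c.1 → c ≠ c' → G.pc M (Sum.inr c) ⊆ A → G.pc M (Sum.inr c') ⊆ A →
      c'.2.1 = c.2.1) : A = D.edge i j := by
  have hi : D.pt i ∈ A := by
    obtain ⟨α, -, -, h3, -, h4⟩ := hA.arc
    rw [← h4, ← h3]
    exact mem_image_of_mem _ ⟨le_refl _, zero_le_one⟩
  obtain ⟨v, hv1, hv2⟩ := vertex_dart G M hA hi
  have hd := rig_darts G M hA hst hv2
  have hend : D.pt v.1.2 ∈ A := by
    have h1 : G.pc M (M.flip (Sum.inl v.rev)) ⊆ A := by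
      refine hd _ ?_
      rw [M.ddir_flip]
      rfl
    rw [pc_flip] at h1
    exact rig_base G M hA h1
  have hsub : D.edge v.1.1 v.1.2 ⊆ A := by
    intro y hy
    rcases skel_cover G M (y := y) ⟨v.1.1, v.1.2, v.2, hy⟩ with ⟨k, hk⟩ | hx | ⟨h, hh⟩
    · rw [hk] at hy ⊢
      by_cases e1 : k = v.1.1
      · rw [e1, hv1]
        exact hi
      · by_cases e2 : k = v.1.2
        · rw [e2]
          exact hend
        · exact absurd hy (D.avoid _ _ _ v.2 e1 e2)
    · obtain ⟨s, d, h1⟩ := rig_on G (x := ⟨y, hx⟩) hy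
      exact rig_base G M hA (hd (Sum.inr (⟨y, hx⟩, s, d)) h1)
    · rcases rig_same D hy (pc_sub_edge G M h hh) (pc_not_crossing G M hh) (pc_ne_pt G M hh) with e | e
      · exact hd h e hh
      · have h1 : G.pc M (M.flip h) ⊆ A := by
          refine hd _ ?_
          rw [M.ddir_flip, e]
          rfl
        rw [pc_flip] at h1
        exact h1 hh
  have hj : v.1.2 = j := by
    rcases hv _ hend with e | e
    · exact absurd (hv1.trans e.symm) v.2
    · exact e
  rw [hv1, hj] at hsub
  exact arc_eq hA.arc (D.arc i j hA.ne) hsub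

end Pool.HexDraw
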