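import Pool.Agent.Lib.MP_8613e3_im.Cov
import Pool.Agent.Lib.MP_8613e3_im.Dis
import Pool.Agent.Lib.MP_8613e3_im.Cl

/-!
# Side (110): an arc in the union of the edges leaves a vertex or crossing along one piece

The finite set `F` of vertices and crossings is closed and `α u ∈ F`; `α` is injective, so only finitely many `s ∈ [0,1]` have `α s ∈ F`; so there is
`ε > 0`, `u + ε ≤ 1`, with `α s ∉ F` for `s ∈ (u, u+ε)`. By `skel_cover` `α '' Ioo u (u+ε)` is covered by the pieces. Take `h` with `α s₀ ∈ pc h`, `s₀` in the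
interval. The set of `s ∈ (u,u+ε)` with `α s ∈ pc h` is open in the interval (its complement is the preimage of the closed set
`D.skel \ pc h`), and so is its complement (the union of the preimages of the other pieces, `pc_disj`); the interval is connected, so
`α '' Ioo u (u+ε) ⊆ pc h`. `α u` is in the closure of `pc h` and in `F`, so by `pc_closure` and NoB it is `base h` or `base (flip h)`;
in the second case take `flip h` (`pc_flip`).
-/

set_option autoImplicit false

namespace Pool.HexDraw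

open Set Topology

variable {S : Type} [TopologicalSpace S] {n : ℕ} {D : Drawing S n}

theorem side [T2Space S] (G : Geo D) (M : LineNet G.L) {p q : S} {α : ℝ → S} {A : Set S} (hα : Param α p q A)
    (hs : A ⊆ D.skel) {u : ℝ} (hu : 0 ≤ u) (hu1 : u < 1) (hb : (∃ i, α u = D.pt i) ∨ α u ∈ D.crossings) :
    ∃ h : Dart n D.crossings, D.base h = α u ∧ ∃ ε > 0, u + ε ≤ 1 ∧ α '' Ioo u (u + ε) ⊆ G.pc M h := by
  obtain ⟨hc, hinj, -, -, him⟩ := hα
  -- the finite set of vertices and crossings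
  have hF : (range D.pt ∪ D.crossings).Finite := (finite_range D.pt).union (crossings_finite D)
  have hT : {s : ℝ | s ∈ Icc (0 : ℝ) 1 ∧ α s ∈ range D.pt ∪ D.crossings}.Finite := by
    refine Set.Finite.of_finite_image (hF.subset ?_) (hinj.mono fun s hs => hs.1)
    rintro y ⟨s, hs, rfl⟩
    exact hs.2
  have hT' : ({s : ℝ | s ∈ Icc (0 : ℝ) 1 ∧ α s ∈ range D.pt ∪ D.crossings} \ {u})ᶜ ∈ 𝓝 u :=
    (hT.subset sdiff_subset).isClosed.isOpen_compl.mem_nhds (by simp)
  obtain ⟨r, hr, hball⟩ := Metric.mem_nhds_iff.1 hT'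
  obtain ⟨ε, he⟩ : ∃ ε : ℝ, ε = min r (1 - u) := ⟨_, rfl⟩
  have he0 : 0 < ε := he ▸ lt_min hr (by linarith)
  have her : ε ≤ r := he ▸ min_le_left _ _
  have he1 : u + ε ≤ 1 := by
    have : ε ≤ 1 - u := he ▸ min_le_right _ _
    linarith
  have hJ : Ioo u (u + ε) ⊆ Icc (0 : ℝ) 1 := fun s hs => ⟨hu.trans hs.1.le, hs.2.le.trans he1⟩
  have hnF : ∀ s ∈ Ioo u (u + ε), α s ∉ range D.pt ∪ D.crossings := by
    intro s hs hmem
    have h1 : s ∈ Metric.ball u r := by
      rw [Metric.mem_ball, Real.dist_eq, abs_of_pos (by linarith [hs.1])]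
      linarith [hs.2]
    exact hball h1 ⟨⟨hJ hs, hmem⟩, hs.1.ne'⟩
  have hcov : ∀ s ∈ Ioo u (u + ε), ∃ h, α s ∈ G.pc M h := by
    intro s hs'
    have h1 : α s ∈ D.skel := hs (him ▸ mem_image_of_mem _ (hJ hs'))
    rcases skel_cover G M h1 with ⟨i, hi⟩ | h2 | h2
    · exact absurd (Or.inl ⟨i, hi.symm⟩) (hnF s hs')
    · exact absurd (Or.inr h2) (hnF s hs')
    · exact h2
  obtain ⟨h, hh⟩ := hcov (u + ε / 2) ⟨by linarith, by linarith⟩
  -- the open sets
  have hopen : ∀ g : Dart n D.crossings, IsOpen (Ioo u (u + ε) ∩ α ⁻¹' (D.skel \ G.pc M g)ᶜ) := fun g =>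
    (hc.mono hJ).isOpen_inter_preimage isOpen_Ioo (skel_diff_closed G M g).isOpen_compl
  have hmem : ∀ g : Dart n D.crossings, ∀ s, s ∈ Ioo u (u + ε) ∩ α ⁻¹' (D.skel \ G.pc M g)ᶜ ↔
      s ∈ Ioo u (u + ε) ∧ α s ∈ G.pc M g := by
    intro g s
    constructor
    · rintro ⟨h1, h2⟩
      refine ⟨h1, ?_⟩
      by_contra h3
      exact h2 ⟨hs (him ▸ mem_image_of_mem _ (hJ h1)), h3⟩
    · rintro ⟨h1, h2⟩
      exact ⟨h1, fun h3 => h3.2 h2⟩
  have hsub : Ioo u (u + ε) ⊆ Ioo u (u + ε) ∩ α ⁻¹' (D.skel \ G.pc M h)ᶜ := by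
    refine IsPreconnected.subset_left_of_subset_union (hopen h)
      (isOpen_iUnion fun g : {g : Dart n D.crossings // g ≠ h ∧ g ≠ M.flip h} => hopen g.1) ?_ ?_ ?_
      isPreconnected_Ioo
    · rw [Set.disjoint_left]
      intro s h1 h2
      rw [mem_iUnion] at h2
      obtain ⟨g, hg⟩ := h2
      rcases pc_disj G M ((hmem _ _).1 h1).2 ((hmem _ _).1 hg).2 with h3 | h3
      · exact g.2.1 h3
      · exact g.2.2 h3
    · intro s h1
      obtain ⟨g, hg⟩ := hcov s h1
      by_cases h2 : g = h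
      · left
        exact (hmem _ _).2 ⟨h1, h2 ▸ hg⟩
      · by_cases h3 : g = M.flip h
        · left
          refine (hmem _ _).2 ⟨h1, ?_⟩
          rw [h3, pc_flip] at hg
          exact hg
        · right
          rw [mem_iUnion]
          exact ⟨⟨g, h2, h3⟩, (hmem _ _).2 ⟨h1, hg⟩⟩
    · exact ⟨u + ε / 2, ⟨by linarith, by linarith⟩, (hmem _ _).2 ⟨⟨by linarith, by linarith⟩, hh⟩⟩
  have himg : α '' Ioo u (u + ε) ⊆ G.pc M h := by
    rintro y ⟨s, h1, rfl⟩
    exact ((hmem _ _).1 (hsub h1)).2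
  -- the end point
  have hcl : α u ∈ closure (G.pc M h) := by
    have h1 : ContinuousWithinAt α (Ioo u (u + ε)) u :=
      (hc u ⟨hu, hu1.le⟩).mono hJ
    have h2 : u ∈ closure (Ioo u (u + ε)) := by
      rw [closure_Ioo (by linarith)]
      exact ⟨le_rfl, by linarith⟩
    exact closure_mono himg (h1.mem_closure_image h2)
  rcases pc_closure G M h hcl with h1 | h1
  · exfalso
    rcases hb with ⟨i, hi⟩ | hb
    · exact pc_ne_pt G M h1 i hi
    · exact pc_not_crossing G M h1 hb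
  · rcases h1 with h1 | h1
    · exact ⟨h, h1.symm, ε, he0, he1, himg⟩
    · refine ⟨M.flip h, h1.symm, ε, he0, he1, ?_⟩
      rw [pc_flip]
      exact himg

end Pool.HexDraw
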