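import Pool.Agent.Lib.MP_8613e3_im.Main

/-!
# Stability: an arc system with few turns differs from the edges only for few pairs

Every arc `A i j` different from the edge `i j` turns at some crossing and contains two of the four pieces there, and
different arcs contain different pieces. So twice the number of these arcs is at most four times the number of turning
crossings.
-/

set_option autoImplicit false

namespace Pool.HexDraw

open Set Topology

variable {S : Type} [TopologicalSpace S] {n : ℕ} {D : Drawing S n}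

private theorem isCompact_arc' {p q : S} {A : Set S} (hA : IsArc p q A) : IsCompact A := by
  obtain ⟨α, h1, -, -, -, h2⟩ := hA
  rw [← h2]
  exact isCompact_Icc.image_of_continuousOn h1

/-- an arc which is no edge turns at a crossing -/
private theorem exists_turn [T2Space S] (G : Geo D) (M : LineNet G.L) {A : Fin n → Fin n → Set S}
    (hA : D.ArcSystem A) {i j : Fin n} (hij : i ≠ j) (hne : A i j ≠ D.edge i j) :
    ∃ c c' : CD D.crossings, c'.1 = c.1 ∧ c ≠ c' ∧ G.pc M (Sum.inr c) ⊆ A i j ∧
      G.pc M (Sum.inr c') ⊆ A i j ∧ c.1.1 ∈ D.turns A := by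
  have hg : Good D i j (A i j) := ⟨hij, hA.arc i j hij, hA.sub i j hij⟩
  have hS := sys_of_arcs G M hA
  by_contra hcon
  push Not at hcon
  apply hne
  apply no_turn G M hg
  · intro k hk
    obtain ⟨v, h5, h6⟩ := vertex_dart G M hg hk
    have h7 := hS.vertex hij (v := v) h6
    rw [h5] at h7
    exact h7
  · intro c c' h5 h6 h7 h8
    by_contra hs
    have hxA : c.1.1 ∈ A i j := by
      have h2 := closure_minimal h7 (isCompact_arc' (hA.arc i j hij)).isClosed
      exact h2 (base_mem_closure G M (Sum.inr c))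
    exact hcon c c' h5 h6 h7 h8
      ⟨c.1.2, i, j, hij, hxA, fun k l hkl hx => not_straight G M hg h5 hxA h7 h8 hs hkl hx⟩

theorem stability [T2Space S] (D : Drawing S n) (A : Fin n → Fin n → Set S) (hA : D.ArcSystem A) :
    {p : Fin n × Fin n | p.1 < p.2 ∧ A p.1 p.2 ≠ D.edge p.1 p.2}.ncard ≤ 2 * (D.turns A).ncard := by
  classical
  have hfin : Finite D.crossings := (crossings_finite D).to_subtype
  obtain ⟨G⟩ := exists_geo D
  obtain ⟨M⟩ := exists_lineNet G.L
  have hS := sys_of_arcs G M hA
  set P : Set (Fin n × Fin n) := {p | p.1 < p.2 ∧ A p.1 p.2 ≠ D.edge p.1 p.2} with hP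
  have hex : ∀ p : P, ∃ c c' : CD D.crossings, c'.1 = c.1 ∧ c ≠ c' ∧ G.pc M (Sum.inr c) ⊆ A p.1.1 p.1.2 ∧
      G.pc M (Sum.inr c') ⊆ A p.1.1 p.1.2 ∧ c.1.1 ∈ D.turns A :=
    fun p => exists_turn G M hA (ne_of_lt p.2.1) p.2.2
  choose c c' h1 h2 h3 h4 h5 using hex
  -- the darts at the turning crossings
  set T : Set D.crossings := {x | x.1 ∈ D.turns A} with hT
  let f : P × Bool → T × (Bool × Bool) := fun q =>
    if q.2 then (⟨(c q.1).1, h5 q.1⟩, (c q.1).2) else (⟨(c' q.1).1, by
      change (c' q.1).1.1 ∈ D.turns A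
      rw [h1]
      exact h5 q.1⟩, (c' q.1).2)
  let g : P × Bool → CD D.crossings := fun q => if q.2 then c q.1 else c' q.1
  have hg : ∀ q, g q = ((f q).1.1, (f q).2) := by
    rintro ⟨p, b⟩
    cases b <;> rfl
  have hgm : ∀ q, G.pc M (Sum.inr (g q)) ⊆ A q.1.1.1 q.1.1.2 := by
    rintro ⟨p, b⟩
    cases b
    · exact h4 p
    · exact h3 p
  have hgi : Function.Injective g := by
    rintro q r hqr
    have e1 := hgm q
    have e2 := hgm r
    rw [hqr] at e1
    have e3 := hS.disj q.1.1.1 q.1.1.2 r.1.1.1 r.1.1.2 (ne_of_lt q.1.2.1) (ne_of_lt r.1.2.1)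
      (Sum.inr (g r)) e1 e2
    have e4 : r.1 = q.1 := by
      rcases e3 with ⟨a, b⟩ | ⟨a, b⟩
      · exact Subtype.ext (Prod.ext a b)
      · exfalso
        have a1 := q.1.2.1
        have a2 := r.1.2.1
        rw [a, b] at a2
        exact lt_asymm a1 a2
    obtain ⟨q1, q2⟩ := q
    obtain ⟨r1, r2⟩ := r
    simp only at e4
    subst e4
    cases q2 <;> cases r2
    · rfl
    · exact absurd hqr.symm (h2 r1)
    · exact absurd hqr (h2 r1)
    · rfl
  have hfi : Function.Injective f := by
    intro q r hqr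
    apply hgi
    rw [hg, hg, hqr]
  have hcard := Nat.card_le_card_of_injective f hfi
  rw [Nat.card_prod, Nat.card_prod, Nat.card_prod] at hcard
  have hb : Nat.card Bool = 2 := by simp
  rw [hb] at hcard
  have hPc : Nat.card P = P.ncard := rfl
  have hTc : Nat.card T = (D.turns A).ncard := by
    have : D.turns A = Subtype.val '' T := by
      ext x
      constructor
      · intro hx
        exact ⟨⟨x, hx.1⟩, hx, rfl⟩
      · rintro ⟨y, hy, rfl⟩
        exact hy
    rw [this, Set.ncard_image_of_injective _ Subtype.val_injective]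
    rfl
  rw [hPc, hTc] at hcard
  omega

end Pool.HexDraw
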