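import Pool.Agent.Lib.MP_8613e3_im.Side
import Pool.Agent.Lib.MP_8613e3_im.All

/-!
# Start (30): an arc of the system contains a piece at its first vertex; more generally at every vertex on it

`side` with `u` the parameter of `D.pt k` (if `u = 1` use the reversed parametrisation `t ↦ α (1 - t)` with `u = 0`), `all_or_nothing`; `base h = pt k`
implies `h = inl v` with `v.1.1 = k` (vertices are no crossings, `D.pt_inj`).
-/

set_option autoImplicit false

namespace Pool.HexDraw

open Set Topology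

variable {S : Type} [TopologicalSpace S] {n : ℕ} {D : Drawing S n}

private theorem st_pt_edge {k i j : Fin n} (hij : i ≠ j) (h : D.pt k ∈ D.edge i j) : k = i ∨ k = j := by
  by_contra hc
  rw [not_or] at hc
  exact D.avoid i j k hij hc.1 hc.2 h

private theorem st_pt_not_crossing (k : Fin n) : D.pt k ∉ D.crossings := by
  rintro ⟨i, j, a, b, hij, hab, ⟨h1, h2, h3, h4⟩, hx, hy⟩
  rcases st_pt_edge hij hx with rfl | rfl <;> rcases st_pt_edge hab hy with rfl | rfl
  · exact h1 rfl
  · exact h2 rfl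
  · exact h3 rfl
  · exact h4 rfl

private theorem st_aux [T2Space S] (G : Geo D) (M : LineNet G.L) {i j : Fin n} {A : Set S} (hA : Good D i j A)
    {p q : S} {α : ℝ → S} (hα : Param α p q A) {k : Fin n} {u : ℝ} (hu : 0 ≤ u) (hu1 : u < 1)
    (hk : α u = D.pt k) : ∃ v : VD n, v.1.1 = k ∧ G.pc M (Sum.inl v) ⊆ A := by
  obtain ⟨h, hb, ε, hε, hε1, hsub⟩ := side G M hα hA.sub hu hu1 (Or.inl ⟨k, hk⟩)
  have hs : u + ε / 2 ∈ Ioo u (u + ε) := ⟨by linarith, by linarith⟩
  have h1 : α (u + ε / 2) ∈ G.pc M h := hsub (mem_image_of_mem _ hs)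
  have h2 : α (u + ε / 2) ∈ A := by
    rw [← hα.2.2.2.2]
    exact mem_image_of_mem _ ⟨by linarith, by linarith⟩
  have h3 : G.pc M h ⊆ A := all_or_nothing G M hA ⟨_, h1, h2⟩
  cases h with
  | inl v =>
    refine ⟨v, ?_, h3⟩
    have h4 : D.pt v.1.1 = D.pt k := by rw [← hk, ← hb]; rfl
    exact D.pt_inj h4
  | inr c =>
    exfalso
    have h4 : c.1.1 = D.pt k := by rw [← hk, ← hb]; rfl
    exact st_pt_not_crossing k (h4 ▸ c.1.2)

theorem vertex_dart [T2Space S] (G : Geo D) (M : LineNet G.L) {i j : Fin n} {A : Set S} (hA : Good D i j A)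
    {k : Fin n} (hk : D.pt k ∈ A) : ∃ v : VD n, v.1.1 = k ∧ G.pc M (Sum.inl v) ⊆ A := by
  obtain ⟨α, hα⟩ := hA.arc
  have hk' := hk
  rw [← hα.2.2.2.2] at hk'
  obtain ⟨u, ⟨hu0, hu1⟩, huk⟩ := hk'
  rcases lt_or_eq_of_le hu1 with hlt | heq
  · exact st_aux G M hA hα hu0 hlt huk
  · obtain ⟨c1, c2, c3, c4, c5⟩ := hα
    have hβ : Param (fun t => α (1 - t)) (D.pt j) (D.pt i) A := by
      refine ⟨?_, ?_, ?_, ?_, ?_⟩
      · exact c1.comp (by fun_prop) (fun t ht => ⟨by linarith [ht.2], by linarith [ht.1]⟩)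
      · intro s hs t ht hst
        have h1 := c2 ⟨by linarith [hs.2], by linarith [hs.1]⟩ ⟨by linarith [ht.2], by linarith [ht.1]⟩ hst
        linarith
      · show α (1 - 0) = _
        rw [sub_zero, c4]
      · show α (1 - 1) = _
        rw [sub_self, c3]
      · rw [← c5]
        ext y
        constructor
        · rintro ⟨t, ht, rfl⟩
          exact ⟨1 - t, ⟨by linarith [ht.2], by linarith [ht.1]⟩, rfl⟩
        · rintro ⟨t, ht, rfl⟩
          refine ⟨1 - t, ⟨by linarith [ht.2], by linarith [ht.1]⟩, ?_⟩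
          show α (1 - (1 - t)) = α t
          rw [sub_sub_cancel]
    refine st_aux G M hA hβ (le_refl 0) zero_lt_one ?_
    show α (1 - 0) = _
    rw [sub_zero, ← heq]
    exact huk

end Pool.HexDraw
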