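import Pool.Agent.Lib.MP_8613e3_im.Stab

/-!
# Arc systems of induced drawings

An arc system of a drawing `D₀` of `K_p` gives an arc system of every drawing `D` of `K_n` which contains `D₀`: the
arcs are carried over by the homeomorphism, and the other pairs of vertices keep their edges.
-/

set_option autoImplicit false

namespace Pool.HexDraw

open Set Topology

variable {S : Type} [TopologicalSpace S] {n p : ℕ}

/-- two different edges of a drawing have finitely many common points -/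
private theorem edge_inter_finite (D : Drawing S n) {i j k l : Fin n} (hij : i ≠ j) (hkl : k ≠ l)
    (hne : ¬ ((k = i ∧ l = j) ∨ (k = j ∧ l = i))) : (D.edge i j ∩ D.edge k l).Finite := by
  by_cases c1 : i = k
  · subst c1
    have hjl : j ≠ l := fun h => hne (Or.inl ⟨rfl, h.symm⟩)
    rw [D.adjacent i j l hij hkl hjl]
    exact Set.finite_singleton _
  by_cases c2 : i = l
  · subst c2
    have hjk : j ≠ k := fun h => hne (Or.inr ⟨h.symm, rfl⟩)
    rw [D.symm k i, D.adjacent i j k hij (Ne.symm hkl) hjk]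
    exact Set.finite_singleton _
  by_cases c3 : j = k
  · subst c3
    rw [D.symm i j, D.adjacent j i l (Ne.symm hij) hkl c2]
    exact Set.finite_singleton _
  by_cases c4 : j = l
  · subst c4
    rw [D.symm i j, D.symm k j, D.adjacent j i k (Ne.symm hij) (Ne.symm hkl) c1]
    exact Set.finite_singleton _
  exact (D.once i j k l hij hkl ⟨c1, c2, c3, c4⟩).finite

/-- the arcs of the large drawing -/
private noncomputable def ext (D : Drawing S n) (ι : Fin p → Fin n) (f : S → S)
    (A : Fin p → Fin p → Set S) (k l : Fin n) : Set S :=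
  {y | (∃ i j, i ≠ j ∧ ι i = k ∧ ι j = l ∧ y ∈ f '' A i j) ∨
    ((¬ ∃ i j, i ≠ j ∧ ι i = k ∧ ι j = l) ∧ y ∈ D.edge k l)}

private theorem ext_in {D : Drawing S n} {ι : Fin p → Fin n} {f : S → S} {A : Fin p → Fin p → Set S}
    (hι : Function.Injective ι) {i j : Fin p} (hij : i ≠ j) : ext D ι f A (ι i) (ι j) = f '' A i j := by
  ext y
  constructor
  · rintro (⟨i', j', -, h1, h2, h3⟩ | ⟨h1, -⟩)
    · rw [hι h1, hι h2] at h3
      exact h3
    · exact absurd ⟨i, j, hij, rfl, rfl⟩ h1
  · intro h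
    exact Or.inl ⟨i, j, hij, rfl, rfl, h⟩

private theorem ext_out {D : Drawing S n} {ι : Fin p → Fin n} {f : S → S} {A : Fin p → Fin p → Set S}
    {k l : Fin n} (h : ¬ ∃ i j, i ≠ j ∧ ι i = k ∧ ι j = l) : ext D ι f A k l = D.edge k l := by
  ext y
  constructor
  · rintro (⟨i, j, h0, h1, h2, -⟩ | ⟨-, h2⟩)
    · exact absurd ⟨i, j, h0, h1, h2⟩ h
    · exact h2
  · intro hy
    exact Or.inr ⟨h, hy⟩

theorem system_of_contains (D : Drawing S n) (D₀ : Drawing S p) {A : Fin p → Fin p → Set S}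
    (hA : D₀.ArcSystem A) {ι : Fin p → Fin n} {f : S ≃ₜ S} (hι : Function.Injective ι)
    (hpt : ∀ i, f (D₀.pt i) = D.pt (ι i)) (hedge : ∀ i j, i ≠ j → f '' D₀.edge i j = D.edge (ι i) (ι j)) :
    D.ArcSystem (ext D ι f A) ∧ f '' D₀.turns A ⊆ D.turns (ext D ι f A) := by
  have hsub : ∀ i j, i ≠ j → ∀ y ∈ f '' A i j, ∃ a b, a ≠ b ∧ y ∈ D.edge (ι a) (ι b) := by
    rintro i j hij _ ⟨y, hy, rfl⟩
    obtain ⟨a, b, hab, hy'⟩ := hA.sub i j hij hy
    refine ⟨a, b, hab, ?_⟩
    rw [← hedge a b hab]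
    exact mem_image_of_mem _ hy'
  refine ⟨⟨?_, ?_, ?_, ?_⟩, ?_⟩
  · intro k l
    by_cases h : ∃ i j, i ≠ j ∧ ι i = k ∧ ι j = l
    · obtain ⟨i, j, hij, rfl, rfl⟩ := h
      rw [ext_in hι hij, ext_in hι (Ne.symm hij), hA.symm]
    · have h' : ¬ ∃ i j, i ≠ j ∧ ι i = l ∧ ι j = k := by
        rintro ⟨i, j, h0, h1, h2⟩
        exact h ⟨j, i, h0.symm, h2, h1⟩
      rw [ext_out h, ext_out h', D.symm]
  · intro k l hkl
    by_cases h : ∃ i j, i ≠ j ∧ ι i = k ∧ ι j = l
    · obtain ⟨i, j, hij, rfl, rfl⟩ := h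
      rw [ext_in hι hij, ← hpt, ← hpt]
      exact (hA.arc i j hij).image f.continuous.continuousOn f.injective.injOn
    · rw [ext_out h]
      exact D.arc k l hkl
  · intro k l hkl y hy
    by_cases h : ∃ i j, i ≠ j ∧ ι i = k ∧ ι j = l
    · obtain ⟨i, j, hij, rfl, rfl⟩ := h
      rw [ext_in hι hij] at hy
      obtain ⟨a, b, hab, h1⟩ := hsub i j hij y hy
      exact ⟨ι a, ι b, fun e => hab (hι e), h1⟩
    · rw [ext_out h] at hy
      exact ⟨k, l, hkl, hy⟩
  · -- finite intersections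
    have mixed : ∀ i j, i ≠ j → ∀ k l, k ≠ l → (¬ ∃ i j, i ≠ j ∧ ι i = k ∧ ι j = l) →
        (f '' A i j ∩ D.edge k l).Finite := by
      intro i j hij k l hkl hout
      have hfin : (⋃ a : Fin p, ⋃ b : Fin p, {y | a ≠ b ∧ y ∈ D.edge (ι a) (ι b) ∩ D.edge k l}).Finite := by
        apply Set.finite_iUnion
        intro a
        apply Set.finite_iUnion
        intro b
        by_cases hab : a = b
        · apply Set.Finite.subset Set.finite_empty
          rintro y ⟨h, -⟩
          exact absurd hab h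
        · apply Set.Finite.subset (edge_inter_finite D (i := ι a) (j := ι b) (k := k) (l := l)
            (fun e => hab (hι e)) hkl ?_)
          · rintro y ⟨-, h⟩
            exact h
          · rintro (⟨h1, h2⟩ | ⟨h1, h2⟩)
            · exact hout ⟨a, b, hab, h1.symm, h2.symm⟩
            · exact hout ⟨b, a, Ne.symm hab, h1.symm, h2.symm⟩
      apply hfin.subset
      rintro y ⟨hy1, hy2⟩
      obtain ⟨a, b, hab, h1⟩ := hsub i j hij y hy1
      exact mem_iUnion.2 ⟨a, mem_iUnion.2 ⟨b, hab, h1, hy2⟩⟩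
    intro k l k' l' hkl hkl' hne
    by_cases h : ∃ i j, i ≠ j ∧ ι i = k ∧ ι j = l
    · obtain ⟨i, j, hij, rfl, rfl⟩ := h
      by_cases h' : ∃ i j, i ≠ j ∧ ι i = k' ∧ ι j = l'
      · obtain ⟨i', j', hij', rfl, rfl⟩ := h'
        rw [ext_in hι hij, ext_in hι hij', ← image_inter f.injective]
        apply Set.Finite.image
        apply hA.fin i j i' j' hij hij'
        rintro (⟨rfl, rfl⟩ | ⟨rfl, rfl⟩)
        · exact hne (Or.inl ⟨rfl, rfl⟩)
        · exact hne (Or.inr ⟨rfl, rfl⟩)
      · rw [ext_in hι hij, ext_out h']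
        exact mixed i j hij k' l' hkl' h'
    · by_cases h' : ∃ i j, i ≠ j ∧ ι i = k' ∧ ι j = l'
      · obtain ⟨i', j', hij', rfl, rfl⟩ := h'
        rw [ext_in hι hij', ext_out h, inter_comm]
        exact mixed i' j' hij' k l hkl h
      · rw [ext_out h, ext_out h']
        exact edge_inter_finite D hkl hkl' hne
  · -- turns
    rintro _ ⟨x, ⟨hx, i, j, hij, hxA, ht⟩, rfl⟩
    obtain ⟨a, b, c, d, hab, hcd, hD, h1, h2⟩ := hx
    have hιne : ∀ {a b : Fin p}, a ≠ b → ι a ≠ ι b := fun h e => h (hι e)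
    have hD' : Dj (ι a) (ι b) (ι c) (ι d) := ⟨hιne hD.1, hιne hD.2.1, hιne hD.2.2.1, hιne hD.2.2.2⟩
    have g1 : f x ∈ D.edge (ι a) (ι b) := by
      rw [← hedge a b hab]
      exact mem_image_of_mem _ h1
    have g2 : f x ∈ D.edge (ι c) (ι d) := by
      rw [← hedge c d hcd]
      exact mem_image_of_mem _ h2
    refine ⟨⟨ι a, ι b, ι c, ι d, hιne hab, hιne hcd, hD', g1, g2⟩, ι i, ι j, hιne hij, ?_, ?_⟩
    · rw [ext_in hι hij]
      exact mem_image_of_mem _ hxA
    · intro k l hkl hk hev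
      rw [ext_in hι hij] at hev
      -- the edge `k l` is the image of an edge through `x`
      have key : ∀ a b, a ≠ b → x ∈ D₀.edge a b → D.edge k l = D.edge (ι a) (ι b) → False := by
        intro a b hab hx1 he
        apply ht a b hab hx1
        rw [he, ← hedge a b hab] at hev
        have h3 : Filter.Tendsto f (𝓝[D₀.edge a b] x) (𝓝[f '' D₀.edge a b] (f x)) := by
          apply tendsto_nhdsWithin_of_tendsto_nhds_of_eventually_within
          · exact (f.continuous.tendsto x).mono_left nhdsWithin_le_nhds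
          · filter_upwards [self_mem_nhdsWithin] with y hy
            exact mem_image_of_mem _ hy
        filter_upwards [h3.eventually hev] with y hy
        exact (f.injective.mem_set_image).1 hy
      rcases h01_three D (hιne hab) (hιne hcd) hD' hkl g1 g2 hk with ⟨e1, e2⟩ | ⟨e1, e2⟩ | ⟨e1, e2⟩ | ⟨e1, e2⟩
      · exact key a b hab h1 (by rw [e1, e2])
      · exact key a b hab h1 (by rw [e1, e2, D.symm])
      · exact key c d hcd h2 (by rw [e1, e2])
      · exact key c d hcd h2 (by rw [e1, e2, D.symm])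

theorem contains_rigid [T2Space S] (D₀ : Drawing S p) (A : Fin p → Fin p → Set S) (hA : D₀.ArcSystem A)
    (D : Drawing S n) (hc : D.Contains D₀) :
    (∃ D' : Drawing S n, D'.cr + (D₀.turns A).ncard ≤ D.cr) ∧
    (D.Optimal → ∀ i j, i ≠ j → A i j = D₀.edge i j) := by
  obtain ⟨ι, f, hι, hpt, hedge⟩ := hc
  obtain ⟨hB, ht⟩ := system_of_contains D D₀ hA hι hpt hedge
  obtain ⟨⟨D', h1⟩, -, h3⟩ := rigidity D _ hB
  refine ⟨⟨D', ?_⟩, ?_⟩
  · have hf : (D.turns (ext D ι f A)).Finite := (crossings_finite D).subset (fun x hx => hx.1)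
    have h4 := Set.ncard_le_ncard ht hf
    rw [Set.ncard_image_of_injective _ f.injective] at h4
    omega
  · intro hopt i j hij
    have h5 := h3 hopt (ι i) (ι j) (fun e => hij (hι e))
    rw [ext_in hι hij, ← hedge i j hij] at h5
    exact f.injective.image_injective h5

end Pool.HexDraw
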